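import Pool.Agent.Lib.MP_5e7226_co.DX.C

set_option autoImplicit false

/-! Definitions for `D_4`. -/

namespace Pool.Agent.Lib.MP_5e7226_co.DX

open Finset

/-- The reflection in a vector `r` of square norm `2`. -/
def rfl2 (r c : Fin 4 → ℝ) : Fin 4 → ℝ := fun k => c k - (∑ i, c i * r i) * r k

/-- The roots of `D_4`: the integer vectors of square norm `2`. -/
def IsRoot (r : Fin 4 → ℝ) : Prop := ∃ z : Fin 4 → ℤ, (∀ k, r k = z k) ∧ ∑ k, z k ^ 2 = 2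

/-- A compact set of dual pairs, invariant under `W(D_4)`, with a point on every ray. -/
structure Dual4 (G : Set ((Fin 4 → ℝ) × (Fin 4 → ℝ))) : Prop where
  compact : IsCompact G
  one : ∀ p ∈ G, ∑ i, p.2 i * p.1 i = 1
  le : ∀ p ∈ G, ∀ q ∈ G, ∑ i, p.2 i * q.1 i ≤ 1
  inv : ∀ p ∈ G, ∀ r, IsRoot r → (rfl2 r p.1, rfl2 r p.2) ∈ G
  ray : ∀ v : Fin 4 → ℝ, v ≠ 0 → ∃ p ∈ G, ∃ t : ℝ, 0 < t ∧ p.1 = t • v

/-- The triality map `H`, `H² = 1`. -/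
noncomputable def Hm (c : Fin 4 → ℝ) : Fin 4 → ℝ :=
  ![(c 0 + c 1 + c 2 + c 3) / 2, (c 0 + c 1 - c 2 - c 3) / 2, (c 0 - c 1 + c 2 - c 3) / 2, (c 0 - c 1 - c 2 + c 3) / 2]

/-- The sign change of the first coordinate. -/
def Nm (c : Fin 4 → ℝ) : Fin 4 → ℝ := ![-c 0, c 1, c 2, c 3]

/-- The pairs in the new coordinates. -/
def img (T : (Fin 4 → ℝ) → (Fin 4 → ℝ)) (G : Set ((Fin 4 → ℝ) × (Fin 4 → ℝ))) :
    Set ((Fin 4 → ℝ) × (Fin 4 → ℝ)) := {q | (T q.1, T q.2) ∈ G}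

/-- `t_1 ≤ t_3, t_4`. -/
def MinClass (G : Set ((Fin 4 → ℝ) × (Fin 4 → ℝ))) : Prop :=
  ∀ p ∈ G, ∀ i, (∀ k, k ≠ i → p.1 k = 0) → ∀ q ∈ G, (∀ k l, |q.1 k| = |q.1 l|) → |p.1 i| ≤ 2 * |q.1 i|

end Pool.Agent.Lib.MP_5e7226_co.DX
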