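import Pool.Agent.Lib.MP_5e7226_co.DX.Core0

set_option autoImplicit false

/-! The core: assembly. -/

namespace Pool.Agent.Lib.MP_5e7226_co.DX

open Finset

variable {d : ℕ}

/-- The sign of a Boolean. -/
def sg (b : Bool) : ℝ := if b then 1 else -1

theorem sg_or (b : Bool) : sg b = 1 ∨ sg b = -1 := by cases b <;> simp [sg]

theorem sg_not (b : Bool) : sg (!b) = - sg b := by cases b <;> simp [sg]

theorem sg_mul_self (b : Bool) : sg b * sg b = 1 := by cases b <;> simp [sg]

theorem sg_abs (x : ℝ) : sg (decide (0 ≤ x)) * x = |x| := by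
  by_cases h : 0 ≤ x
  · simp [sg, h, abs_of_nonneg h]
  · push Not at h
    simp [sg, not_le.2 h, abs_of_neg h]

theorem prod_or (s : Fin d → Bool) : ∏ i, sg (s i) = 1 ∨ ∏ i, sg (s i) = -1 := by
  classical
  refine Finset.prod_induction (fun i => sg (s i)) (fun r => r = 1 ∨ r = -1) ?_ (Or.inl rfl)
    (fun i _ => sg_or (s i))
  rintro a b (rfl | rfl) (rfl | rfl) <;> simp

theorem prod_flip (s : Fin d → Bool) (j : Fin d) :
    ∏ i, sg (Function.update s j (!s j) i) = - ∏ i, sg (s i) := by
  classical
  have h1 : (∏ i, sg (s i)) = sg (s j) * ∏ i ∈ univ.erase j, sg (s i) :=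
    (Finset.mul_prod_erase univ (fun i => sg (s i)) (mem_univ j)).symm
  have h2 : (∏ i, sg (Function.update s j (!s j) i)) =
      sg (Function.update s j (!s j) j) * ∏ i ∈ univ.erase j, sg (Function.update s j (!s j) i) :=
    (Finset.mul_prod_erase univ (fun i => sg (Function.update s j (!s j) i)) (mem_univ j)).symm
  rw [h1, h2, Function.update_self, sg_not, neg_mul]
  congr 2
  refine prod_congr rfl fun i hi => ?_
  rw [Function.update_of_ne (ne_of_mem_erase hi)]

theorem exists_parity (s : Fin d → Bool) (j : Fin d) {κ : ℝ} (hκ : κ = 1 ∨ κ = -1) :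
    ∃ ε : Fin d → Bool, (∀ i, i ≠ j → ε i = s i) ∧ ∏ i, sg (ε i) = κ := by
  by_cases h : ∏ i, sg (s i) = κ
  · exact ⟨s, fun i _ => rfl, h⟩
  · refine ⟨Function.update s j (!s j), fun i hi => Function.update_of_ne hi _ _, ?_⟩
    rw [prod_flip]
    rcases prod_or s with h1 | h1 <;> rcases hκ with h2 | h2 <;> rw [h1, h2] at h <;> rw [h1, h2] <;> simp_all

/-- The weights of the first family. -/
def w1 (a : Fin d) (δ : ℝ) (i : Fin d) : ℝ := if i = a then δ else 1

theorem works_of {G : Set ((Fin d → ℝ) × (Fin d → ℝ))} (hG : Dual G) {x : Fin d → ℝ} {ε : Fin d → Bool}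
    (hε : ∀ i, sg (ε i) * x i = |x i|) {w : Fin d → ℝ}
    (h : ∀ u, (x, u) ∈ G → Cham (fun i => |x i|) (fun i => sg (ε i) * u i) →
      0 < ∑ i, (sg (ε i) * u i) * w i) : Works G x (fun i => sg (ε i) * w i) := by
  intro u hu
  have h1 := h u hu (cham hG hu (fun i => sg_or (ε i)) hε)
  refine lt_of_lt_of_eq h1 (sum_congr rfl fun i _ => ?_)
  ring

/-- The function `u ↦ ∑ u z` for a flipped vector. -/
theorem works_flip {G : Set ((Fin d → ℝ) × (Fin d → ℝ))} (hG : Dual G) {x : Fin d → ℝ} {s : Fin d → Bool}
    (hs : ∀ i, sg (s i) * x i = |x i|) {w : Fin d → ℝ} (j : Fin d)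
    (h : ∀ u, (x, u) ∈ G → Cham (fun i => |x i|) (fun i => sg (s i) * u i) →
      0 < ∑ i ∈ univ.erase j, (sg (s i) * u i) * w i - (sg (s j) * u j) * w j) :
    Works G x (fun i => sg (Function.update s j (!s j) i) * w i) := by
  intro u hu
  have h1 := h u hu (cham hG hu (fun i => sg_or (s i)) hs)
  refine lt_of_lt_of_eq h1 ?_
  rw [← Finset.add_sum_erase univ (fun i => u i * (sg (Function.update s j (!s j) i) * w i)) (mem_univ j)]
  rw [Function.update_self, sg_not]
  have h2 : ∑ i ∈ univ.erase j, u i * (sg (Function.update s j (!s j) i) * w i) =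
      ∑ i ∈ univ.erase j, (sg (s i) * u i) * w i := by
    refine sum_congr rfl fun i hi => ?_
    rw [Function.update_of_ne (ne_of_mem_erase hi)]
    ring
  rw [h2]
  ring

theorem x_ne {G : Set ((Fin d → ℝ) × (Fin d → ℝ))} (hG : Dual G) {q : (Fin d → ℝ) × (Fin d → ℝ)} (hq : q ∈ G) :
    ∃ i, q.1 i ≠ 0 := by
  by_contra h
  push Not at h
  have h1 := hG.one q hq
  rw [Finset.sum_eq_zero (fun i _ => by rw [h i, mul_zero])] at h1
  exact zero_ne_one h1

theorem sum_ite_card (S : Finset (Fin d)) (p : Fin d) (hp : p ∈ S) (c : ℝ) :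
    ∑ i ∈ S, (if i = p then c else (1 : ℝ)) = c + ((S.card : ℝ) - 1) := by
  classical
  rw [← Finset.add_sum_erase S _ hp, if_pos rfl]
  congr 1
  rw [Finset.sum_congr rfl (fun i hi => if_neg (ne_of_mem_erase hi)), sum_const, card_erase_of_mem hp, nsmul_eq_mul,
    mul_one]
  have : 1 ≤ S.card := card_pos.2 ⟨p, hp⟩
  push_cast [this]
  ring

theorem sum_ite_card' (S : Finset (Fin d)) (p : Fin d) (hp : p ∉ S) (c : ℝ) :
    ∑ i ∈ S, (if i = p then c else (1 : ℝ)) = S.card := by
  have h : ∀ i ∈ S, (if i = p then c else (1 : ℝ)) = 1 := by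
    intro i hi
    rw [if_neg]
    rintro rfl
    exact hp hi
  rw [Finset.sum_congr rfl h, sum_const, nsmul_eq_mul, mul_one]

theorem core (hd : 5 ≤ d) {G : Set ((Fin d → ℝ) × (Fin d → ℝ))} (hG : Dual G) :
    (∃ t, CubeData G t) ∨ ∃ (ι : Type) (_ : Fintype ι), Fintype.card ι ≤ 2 ^ d - 4 ∧
      ∃ z : ι → Fin d → ℝ, ∀ q ∈ G, ∃ i, Works G q.1 (z i) := by
  classical
  set a : Fin d := ⟨0, by omega⟩ with ha
  by_cases hbad : Bad G a 1 ∧ Bad G a (-1)
  · exact Or.inl (bad_both hd hG hbad.1 hbad.2)
  right
  obtain ⟨κ, hκ, hb⟩ : ∃ κ : ℝ, (κ = 1 ∨ κ = -1) ∧ ¬ Bad G a κ := by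
    by_cases h1 : Bad G a 1
    · exact ⟨-1, Or.inr rfl, fun h2 => hbad ⟨h1, h2⟩⟩
    · exact ⟨1, Or.inl rfl, h1⟩
  obtain ⟨δ, hδ, hδ1, hδ2⟩ := exists_delta hG hκ hb
  obtain ⟨R, hRc, hR⟩ := exists_R hd
  have hcard := card_parity (d := d) (by omega) κ hκ
  refine ⟨{ε : Fin d → Bool // ∏ i, sg (ε i) = κ} ⊕ (Bool ⊕ {p : (Fin d → Bool) × Fin d // p ∈ R}),
    inferInstance, ?_, ?_⟩
  · have h1 : Fintype.card {ε : Fin d → Bool // ∏ i, sg (ε i) = κ} = 2 ^ (d - 1) := by
      rw [Fintype.card_subtype]
      exact hcard
    rw [Fintype.card_sum, Fintype.card_sum, h1, Fintype.card_bool, Fintype.card_coe]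
    have h2 : 2 ^ d = 2 ^ (d - 1) + 2 ^ (d - 1) := by
      rw [← two_mul, ← pow_succ']
      congr 1
      omega
    omega
  refine ⟨Sum.elim (fun ε i => sg (ε.1 i) * w1 a δ i) (Sum.elim (fun c i => sg c * (if i = a then 1 else 0))
    (fun p i => sg (p.1.1 i) * (if i = p.1.2 then (d : ℝ) else 1))), ?_⟩
  rintro ⟨x, u₀⟩ hq
  -- signs
  set s : Fin d → Bool := fun i => decide (0 ≤ x i) with hs
  have hsx : ∀ i, sg (s i) * x i = |x i| := fun i => sg_abs (x i)
  set A : Finset (Fin d) := univ.filter (fun i => 0 < |x i|) with hA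
  set B : Finset (Fin d) := univ.filter (fun i => |x i| = 0) with hB
  have hAB : A.card + B.card = d := by
    have h1 : B = univ.filter (fun i => ¬ 0 < |x i|) := by
      rw [hB]
      refine filter_congr fun i _ => ?_
      rw [not_lt]
      exact ⟨fun h => h.le, fun h => le_antisymm h (abs_nonneg _)⟩
    rw [h1, hA, card_filter_add_card_filter_not, card_univ, Fintype.card_fin]
  have hAne : A.Nonempty := by
    obtain ⟨i, hi⟩ := x_ne hG hq
    exact ⟨i, by simp only [hA, mem_filter, mem_univ, true_and]; exact abs_pos.2 hi⟩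
  have memA : ∀ i, i ∈ A ↔ 0 < |x i| := fun i => by simp [hA]
  have memB : ∀ i, i ∈ B ↔ |x i| = 0 := fun i => by simp [hB]
  by_cases hBe : B.Nonempty
  · obtain ⟨j0, hj0⟩ := hBe
    have hj0' := (memB j0).1 hj0
    -- a vector agreeing with the signs on `A`
    have hagree : ∀ ε : Fin d → Bool, (∀ k ∈ A, ε k = s k) → ∀ i, sg (ε i) * x i = |x i| := by
      intro ε hε i
      by_cases hi : i ∈ A
      · rw [hε i hi]; exact hsx i
      · have : |x i| = 0 := le_antisymm (not_lt.1 (fun h => hi ((memA i).2 h))) (abs_nonneg _)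
        rw [this, abs_eq_zero.1 this, mul_zero]
    by_cases hsmall : 2 * A.card ≤ d ∧ (2 * A.card = d → a ∈ A)
    · obtain ⟨p, hpR, hpA, hpε⟩ := hR A hAne hsmall.1 hsmall.2 s
      refine ⟨Sum.inr (Sum.inr ⟨p, hpR⟩), ?_⟩
      refine works_of hG (hagree p.1 hpε) (w := fun i => if i = p.2 then (d : ℝ) else 1) ?_
      intro u hu hC
      refine partial_pos hC ⟨j0, hj0'⟩ ?_ ?_
      · intro i _
        have : (0 : ℝ) < d := by exact_mod_cast (by omega : 0 < d)
        split_ifs
        · exact this
        · exact one_pos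
      · have h1 : ∑ j ∈ univ.filter (fun j => |x j| = 0), |if j = p.2 then (d : ℝ) else 1| = B.card := by
          have : ∀ j ∈ univ.filter (fun j => |x j| = 0), |if j = p.2 then (d : ℝ) else 1| = 1 := by
            intro j hj
            have hj' : |x j| = 0 := (mem_filter.1 hj).2
            rw [if_neg, abs_one]
            rintro rfl
            have := (memA _).1 hpA
            rw [hj'] at this
            exact lt_irrefl _ this
          rw [sum_congr rfl this, sum_const, nsmul_eq_mul, mul_one]
        have h2 : ∑ i ∈ univ.filter (fun i => 0 < |x i|), (if i = p.2 then (d : ℝ) else 1) = d + ((A.card : ℝ) - 1) :=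
          sum_ite_card A p.2 hpA d
        rw [h1, h2]
        have h3 : (A.card : ℝ) + B.card = d := by exact_mod_cast hAB
        have h4 : (1 : ℝ) ≤ A.card := by exact_mod_cast card_pos.2 hAne
        linarith
    · obtain ⟨ε, hε1, hε2⟩ := exists_parity s j0 hκ
      have hεA : ∀ k ∈ A, ε k = s k := by
        intro k hk
        refine hε1 k ?_
        rintro rfl
        have := (memA _).1 hk
        rw [hj0'] at this
        exact lt_irrefl _ this
      refine ⟨Sum.inl ⟨ε, hε2⟩, ?_⟩
      refine works_of hG (hagree ε hεA) (w := w1 a δ) ?_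
      intro u hu hC
      refine partial_pos hC ⟨j0, hj0'⟩ ?_ ?_
      · intro i _
        unfold w1
        split_ifs
        · exact hδ
        · exact one_pos
      · have habs : ∀ j, |w1 a δ j| = w1 a δ j := by
          intro j
          unfold w1
          split_ifs
          · exact abs_of_pos hδ
          · exact abs_one
        rw [sum_congr rfl (fun j _ => habs j)]
        have h3 : (A.card : ℝ) + B.card = d := by exact_mod_cast hAB
        have h5 : ¬ (2 * A.card ≤ d ∧ (2 * A.card = d → a ∈ A)) := hsmall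
        by_cases haA : a ∈ A
        · have haB : a ∉ B := by
            intro h
            have h1 := (memA a).1 haA
            rw [(memB a).1 h] at h1
            exact lt_irrefl _ h1
          have h1 : ∑ j ∈ univ.filter (fun j => |x j| = 0), w1 a δ j = B.card := sum_ite_card' B a haB δ
          have h2 : ∑ i ∈ univ.filter (fun i => 0 < |x i|), w1 a δ i = δ + ((A.card : ℝ) - 1) :=
            sum_ite_card A a haA δ
          rw [h1, h2]
          have h6 : B.card + 1 ≤ A.card := by
            by_contra hcon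
            exact h5 ⟨by omega, fun _ => haA⟩
          have h7 : (B.card : ℝ) + 1 ≤ A.card := by exact_mod_cast h6
          linarith
        · have haB : a ∈ B := by
            rw [memB]
            exact le_antisymm (not_lt.1 (fun h => haA ((memA a).2 h))) (abs_nonneg _)
          have h1 : ∑ j ∈ univ.filter (fun j => |x j| = 0), w1 a δ j = δ + ((B.card : ℝ) - 1) :=
            sum_ite_card B a haB δ
          have h2 : ∑ i ∈ univ.filter (fun i => 0 < |x i|), w1 a δ i = A.card := sum_ite_card' A a haA δ
          rw [h1, h2]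
          have h6 : B.card ≤ A.card := by
            by_contra hcon
            exact h5 ⟨by omega, fun h => by omega⟩
          have h7 : (B.card : ℝ) ≤ A.card := by exact_mod_cast h6
          linarith
  · -- all coordinates are nonzero
    have hpos : ∀ i, 0 < |x i| := by
      intro i
      by_contra h
      exact hBe ⟨i, (memB i).2 (le_antisymm (not_lt.1 h) (abs_nonneg _))⟩
    have hd1 : (5 : ℝ) ≤ d := by exact_mod_cast hd
    have hpairs : ∀ {U : Fin d → ℝ}, Cham (fun i => |x i|) U → ∀ i j, i ≠ j → 0 ≤ U i + U j := by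
      intro U hC i j hij
      exact hC.pair i j hij (add_pos (hpos i) (hpos j))
    by_cases hP : ∏ i, sg (s i) = κ
    · refine ⟨Sum.inl ⟨s, hP⟩, ?_⟩
      refine works_of hG hsx (w := w1 a δ) ?_
      intro u hu hC
      refine pair_pos (hpairs hC) (cham_ne hC) ?_ ?_
      · intro i
        unfold w1
        split_ifs
        · exact hδ
        · exact one_pos
      · intro n
        have hn1 : w1 a δ n ≤ 1 := by
          unfold w1
          split_ifs
          · exact hδ1.le
          · exact le_rfl
        have htot : ∑ k, w1 a δ k = δ + ((d : ℝ) - 1) := by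
          have := sum_ite_card (univ : Finset (Fin d)) a (mem_univ a) δ
          rwa [card_univ, Fintype.card_fin] at this
        have h1 := Finset.add_sum_erase univ (w1 a δ) (mem_univ n)
        linarith
    · -- the product of the signs is `-κ`
      have hP' : ∏ i, sg (s i) = -κ := by
        rcases prod_or s with h1 | h1 <;> rcases hκ with h2 | h2 <;> rw [h1, h2] at hP <;> rw [h1, h2] <;> simp_all
      have hflip : ∀ j, ∏ i, sg (Function.update s j (!s j) i) = κ := by
        intro j
        rw [prod_flip, hP', neg_neg]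
      by_cases h1 : ∀ k, k ≠ a → |x k| < |x a|
      · refine ⟨Sum.inr (Sum.inl (s a)), ?_⟩
        intro u hu
        have hC := cham hG hu (fun i => sg_or (s i)) hsx
        have h2 := max_pos (by omega) hC h1
        refine lt_of_lt_of_eq h2 ?_
        rw [Finset.sum_eq_single a]
        · simp [mul_comm]
        · intro i _ hi
          simp [hi]
        · intro h
          exact absurd (mem_univ a) h
      push Not at h1
      obtain ⟨i, hia, hi⟩ := h1
      by_cases h2 : ∀ k, |x a| ≤ |x k|
      · -- flip `a`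
        refine ⟨Sum.inl ⟨Function.update s a (!s a), hflip a⟩, ?_⟩
        refine works_flip hG hsx (w := w1 a δ) a ?_
        intro u hu hC
        have e1 : ∑ k ∈ univ.erase a, sg (s k) * u k * w1 a δ k = ∑ k ∈ univ.erase a, sg (s k) * u k := by
          refine sum_congr rfl fun k hk => ?_
          rw [w1, if_neg (ne_of_mem_erase hk), mul_one]
        have e2 : w1 a δ a = δ := by rw [w1, if_pos rfl]
        rw [e1, e2, mul_comm (sg (s a) * u a) δ]
        by_cases h3 : ∃ k, |x a| < |x k|
        · exact flip_low (by omega) hC hpos h2 h3 hδ.le hδ1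
        · -- all equal
          push Not at h3
          have heq : ∀ k, |x k| = |x a| := fun k => le_antisymm (h3 k) (h2 k)
          have hprod : κ * ∏ k, x k < 0 := by
            have e3 : ∀ k, x k = sg (s k) * |x k| := by
              intro k
              rw [← hsx k, ← mul_assoc, sg_mul_self, one_mul]
            have e4 : ∏ k, x k = (∏ k, sg (s k)) * ∏ k, |x k| := by
              rw [← prod_mul_distrib]
              exact prod_congr rfl fun k _ => e3 k
            have e5 : 0 < ∏ k, |x k| := prod_pos fun k _ => hpos k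
            rw [e4, hP']
            rcases hκ with h | h <;> rw [h] <;> linarith
          have h4 := hδ2 (x, u) hu heq hprod
          have h5 := hC.one
          simp only [heq] at h5
          rw [← sum_mul, ← Finset.add_sum_erase univ (fun k => sg (s k) * u k) (mem_univ a)] at h5
          have h6 : x a * u a = sg (s a) * u a * |x a| := by
            rw [← hsx a]
            have := sg_mul_self (s a)
            linear_combination (-(x a * u a)) * this
          have h7 := hpos a
          simp only at h4
          rw [h6] at h4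
          by_contra hcon
          push Not at hcon
          have h8 := mul_le_mul_of_nonneg_right hcon h7.le
          nlinarith
      · -- flip a lowest coordinate
        push Not at h2
        obtain ⟨k0, hk0⟩ := h2
        obtain ⟨j, -, hj⟩ := Finset.exists_min_image univ (fun k => |x k|) ⟨a, mem_univ a⟩
        have hj' : ∀ k, |x j| ≤ |x k| := fun k => hj k (mem_univ k)
        have hja : |x j| < |x a| := lt_of_le_of_lt (hj' k0) hk0
        have hne : j ≠ a := by
          rintro rfl
          exact lt_irrefl _ hja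
        refine ⟨Sum.inl ⟨Function.update s j (!s j), hflip j⟩, ?_⟩
        refine works_flip hG hsx (w := w1 a δ) j ?_
        intro u hu hC
        have h4 := flip_other hd hC hpos hia hi hj' hja hδ
        refine lt_of_lt_of_eq h4 ?_
        have e2 : w1 a δ j = 1 := by rw [w1, if_neg hne]
        have e3 : a ∈ univ.erase j := mem_erase.2 ⟨hne.symm, mem_univ a⟩
        rw [e2, ← Finset.add_sum_erase _ (fun k => sg (s k) * u k * w1 a δ k) e3]
        have e4 : ∑ k ∈ (univ.erase j).erase a, sg (s k) * u k * w1 a δ k =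
            ∑ k ∈ (univ.erase a).erase j, sg (s k) * u k := by
          rw [erase_right_comm]
          refine sum_congr rfl fun k hk => ?_
          rw [w1, if_neg (ne_of_mem_erase (mem_of_mem_erase hk)), mul_one]
        rw [e4, w1, if_pos rfl]
        ring

end Pool.Agent.Lib.MP_5e7226_co.DX
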