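import Pool.Agent.Lib.MP_5e7226_co.DX.Defs

set_option autoImplicit false

/-! Rows DX-C: the inequalities. -/

namespace Pool.Agent.Lib.MP_5e7226_co.DX

open Finset

variable {d : ℕ}

theorem refl_prod {G : Set ((Fin d → ℝ) × (Fin d → ℝ))} (hG : Dual G) {x u : Fin d → ℝ} (h : (x, u) ∈ G)
    {i j : Fin d} (hij : i ≠ j) {e : ℝ} (he : e = 1 ∨ e = -1) : 0 ≤ (x i - e * x j) * (u i - e * u j) := by
  have hee : e * e = 1 := by rcases he with h | h <;> rw [h] <;> norm_num
  have hne : ∀ k, (if k = i ∨ k = j then e else 1) = 1 ∨ (if k = i ∨ k = j then e else 1) = -1 := by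
    intro k
    by_cases hk : k = i ∨ k = j
    · rw [if_pos hk]; exact he
    · rw [if_neg hk]; exact Or.inl rfl
  have hprod : ∏ k, (if k = i ∨ k = j then e else 1) = 1 := by
    rw [Finset.prod_eq_mul i j hij (fun k _ hk => by
      rw [if_neg]; rintro (h | h); exacts [hk.1 h, hk.2 h]) (by simp) (by simp)]
    simp [hee]
  have h1 := hG.le _ h _ h (Equiv.swap i j) (fun k => if k = i ∨ k = j then e else 1) hne hprod
  have h2 := hG.one _ h
  have h3 : ∑ k, (u k * x k - u k * ((if k = i ∨ k = j then e else 1) * x (Equiv.swap i j k))) =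
      (x i - e * x j) * (u i - e * u j) := by
    rw [Finset.sum_eq_add i j hij (fun k _ hk => by
      rw [if_neg (by rintro (h | h); exacts [hk.1 h, hk.2 h]), Equiv.swap_apply_of_ne_of_ne hk.1 hk.2]
      ring) (by simp) (by simp)]
    rw [if_pos (Or.inl rfl), if_pos (Or.inr rfl), Equiv.swap_apply_left, Equiv.swap_apply_right]
    linear_combination (-(x j * u j)) * hee
  rw [← h3, Finset.sum_sub_distrib]
  have h4 : ∑ k, u k * x k = 1 := h2
  have h5 : ∑ k, u k * ((if k = i ∨ k = j then e else 1) * x (Equiv.swap i j k)) ≤ 1 := h1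
  linarith

/-- C1 -/
theorem refl_le {G : Set ((Fin d → ℝ) × (Fin d → ℝ))} (hG : Dual G) {x u : Fin d → ℝ} (h : (x, u) ∈ G)
    {i j : Fin d} (hij : i ≠ j) {e : ℝ} (he : e = 1 ∨ e = -1) (hx : e * x j < x i) : e * u j ≤ u i := by
  have h1 := refl_prod hG h hij he
  have h2 := nonneg_of_mul_nonneg_right h1 (sub_pos.2 hx)
  linarith

/-- C2 -/
theorem cham {G : Set ((Fin d → ℝ) × (Fin d → ℝ))} (hG : Dual G) {x u s : Fin d → ℝ} (h : (x, u) ∈ G)
    (hs : ∀ i, s i = 1 ∨ s i = -1) (hsx : ∀ i, s i * x i = |x i|) : Cham (fun i => |x i|) (fun i => s i * u i) := by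
  have hss : ∀ i, s i * s i = 1 := fun i => by rcases hs i with h | h <;> rw [h] <;> norm_num
  have hxs : ∀ i, x i = s i * |x i| := fun i => by
    rw [← hsx i, ← mul_assoc, hss, one_mul]
  have key : ∀ i j, i ≠ j → ∀ e : ℝ, e = 1 ∨ e = -1 →
      0 ≤ (|x i| - e * |x j|) * (s i * u i - e * (s j * u j)) := by
    intro i j hij e he
    have h1 := refl_prod hG h hij (e := s i * e * s j) (by
      rcases hs i with h1 | h1 <;> rcases hs j with h2 | h2 <;> rcases he with h3 | h3 <;>
        rw [h1, h2, h3] <;> norm_num)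
    have h2 : (x i - s i * e * s j * x j) * (u i - s i * e * s j * u j) =
        (|x i| - e * |x j|) * (s i * u i - e * (s j * u j)) := by
      rw [← hsx i, ← hsx j]
      have e1 : x i - s i * e * s j * x j = s i * (s i * x i - e * (s j * x j)) := by
        linear_combination (-(x i)) * hss i
      rw [e1]
      linear_combination ((s i * x i - e * (s j * x j)) * (-(e * s j * u j))) * hss i
    rw [h2] at h1
    exact h1
  refine ⟨fun i => abs_nonneg _, ?_, ?_, ?_⟩
  · intro i j hij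
    have hne : i ≠ j := fun e => by rw [e] at hij; exact lt_irrefl _ hij
    have hij' : |x j| < |x i| := hij
    have h0 := abs_nonneg (x j)
    have h1 := key i j hne 1 (Or.inl rfl)
    have h2 := key i j hne (-1) (Or.inr rfl)
    have h3 := nonneg_of_mul_nonneg_right h1 (by linarith)
    have h4 := nonneg_of_mul_nonneg_right h2 (by linarith)
    rw [abs_le]
    constructor <;> linarith
  · intro i j hne hpos
    have hpos' : 0 < |x i| + |x j| := hpos
    have h2 := key i j hne (-1) (Or.inr rfl)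
    have h4 := nonneg_of_mul_nonneg_right h2 (by linarith)
    show 0 ≤ s i * u i + s j * u j
    linarith
  · rw [← hG.one _ h]
    refine Finset.sum_congr rfl fun i _ => ?_
    show s i * u i * |x i| = u i * x i
    rw [← hsx i]
    linear_combination (u i * x i) * hss i

theorem cham_ne {X U : Fin d → ℝ} (h : Cham X U) : ∃ i, U i ≠ 0 := by
  by_contra hc
  push Not at hc
  have := h.one
  simp [hc] at this

/-- C3: the case of a zero coordinate. -/
theorem partial_pos {X U : Fin d → ℝ} (h : Cham X U) {w : Fin d → ℝ} (hz : ∃ j, X j = 0)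
    (hw : ∀ i, 0 < X i → 0 < w i)
    (hsum : ∑ j ∈ univ.filter (fun j => X j = 0), |w j| < ∑ i ∈ univ.filter (fun i => 0 < X i), w i) :
    0 < ∑ i, U i * w i := by
  have hne : (univ.filter (fun i => 0 < X i)).Nonempty := by
    rw [Finset.nonempty_iff_ne_empty]
    intro he
    rw [he, Finset.sum_empty] at hsum
    exact absurd hsum (not_lt.2 (Finset.sum_nonneg fun i _ => abs_nonneg _))
  obtain ⟨k, hk, hmin⟩ := Finset.exists_min_image _ U hne
  rw [Finset.mem_filter] at hk
  obtain ⟨j0, hj0⟩ := hz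
  have hB : ∀ j, X j = 0 → |U j| ≤ U k := fun j hj => h.dom k j (by rw [hj]; exact hk.2)
  have hμ0 : 0 ≤ U k := (abs_nonneg _).trans (hB j0 hj0)
  have hsplit : ∑ i, U i * w i = ∑ i ∈ univ.filter (fun i => 0 < X i), U i * w i +
      ∑ j ∈ univ.filter (fun j => X j = 0), U j * w j := by
    rw [← Finset.sum_filter_add_sum_filter_not univ (fun i => 0 < X i)]
    congr 1
    apply Finset.sum_congr _ (fun _ _ => rfl)
    ext i
    simp only [Finset.mem_filter, Finset.mem_univ, true_and, not_lt]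
    exact ⟨fun hh => le_antisymm hh (h.nonneg i), fun hh => hh.le⟩
  have hA1 : ∀ i ∈ univ.filter (fun i => 0 < X i), U k * w i ≤ U i * w i := by
    intro i hi
    exact mul_le_mul_of_nonneg_right (hmin i hi) (hw i (Finset.mem_filter.1 hi).2).le
  have hB1 : ∀ j ∈ univ.filter (fun j => X j = 0), -(U k * |w j|) ≤ U j * w j := by
    intro j hj
    have h3 : |U j * w j| ≤ U k * |w j| := by
      rw [abs_mul]
      exact mul_le_mul_of_nonneg_right (hB j (Finset.mem_filter.1 hj).2) (abs_nonneg _)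
    exact (abs_le.mp h3).1
  have h1 := Finset.sum_le_sum hA1
  have h2 := Finset.sum_le_sum hB1
  rw [← Finset.mul_sum] at h1
  rw [Finset.sum_neg_distrib, ← Finset.mul_sum] at h2
  rw [hsplit]
  rcases hμ0.eq_or_lt with h0 | h0
  · have hB0 : ∀ j, X j = 0 → U j = 0 := fun j hj => by
      have := hB j hj
      rw [← h0] at this
      exact abs_nonpos_iff.mp this
    have hsB : ∑ j ∈ univ.filter (fun j => X j = 0), U j * w j = 0 :=
      Finset.sum_eq_zero (fun j hj => by rw [hB0 j (Finset.mem_filter.1 hj).2, zero_mul])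
    rw [hsB, add_zero]
    have hnn : ∀ i ∈ univ.filter (fun i => 0 < X i), 0 ≤ U i * w i := fun i hi => by
      have := hA1 i hi
      rw [← h0, zero_mul] at this; exact this
    apply lt_of_le_of_ne (Finset.sum_nonneg hnn)
    intro he
    have h3 := (Finset.sum_eq_zero_iff_of_nonneg hnn).mp he.symm
    obtain ⟨i, hi⟩ := cham_ne h
    apply hi
    by_cases hXi : 0 < X i
    · have h4 := h3 i (Finset.mem_filter.2 ⟨Finset.mem_univ _, hXi⟩)
      rcases mul_eq_zero.mp h4 with h5 | h5
      · exact h5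
      · exact absurd h5 (hw i hXi).ne'
    · exact hB0 i (le_antisymm (not_lt.1 hXi) (h.nonneg i))
  · have := mul_lt_mul_of_pos_left hsum h0
    linarith

/-- C4 -/
theorem pair_pos {U w : Fin d → ℝ} (hp : ∀ i j, i ≠ j → 0 ≤ U i + U j) (hne : ∃ i, U i ≠ 0)
    (hw : ∀ i, 0 < w i) (hw2 : ∀ n, w n < ∑ k ∈ univ.erase n, w k) : 0 < ∑ i, U i * w i := by
  by_cases hall : ∀ i, 0 ≤ U i
  · obtain ⟨i, hi⟩ := hne
    refine Finset.sum_pos' (fun k _ => mul_nonneg (hall k) (hw k).le) ⟨i, Finset.mem_univ _, ?_⟩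
    exact mul_pos (lt_of_le_of_ne (hall i) hi.symm) (hw i)
  · push Not at hall
    obtain ⟨n, hn⟩ := hall
    rw [← Finset.add_sum_erase univ _ (Finset.mem_univ n)]
    have h1 : (-U n) * ∑ k ∈ univ.erase n, w k ≤ ∑ k ∈ univ.erase n, U k * w k := by
      rw [Finset.mul_sum]
      refine Finset.sum_le_sum fun k hk => mul_le_mul_of_nonneg_right ?_ (hw k).le
      have h2 := hp n k (Finset.ne_of_mem_erase hk).symm
      linarith
    have h2 : (-U n) * w n < (-U n) * ∑ k ∈ univ.erase n, w k :=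
      mul_lt_mul_of_pos_left (hw2 n) (by linarith)
    linarith

/-- C5 -/
theorem pair_sum_nonneg {U : Fin d → ℝ} {S : Finset (Fin d)} (hp : ∀ i ∈ S, ∀ j ∈ S, i ≠ j → 0 ≤ U i + U j)
    (hS : 2 ≤ S.card) : 0 ≤ ∑ i ∈ S, U i := by
  by_cases hall : ∀ i ∈ S, 0 ≤ U i
  · exact Finset.sum_nonneg hall
  · push Not at hall
    obtain ⟨n, hnS, hn⟩ := hall
    have hpos : ∀ k ∈ S.erase n, 0 ≤ U k := by
      intro k hk
      have h2 := hp n hnS k (Finset.mem_of_mem_erase hk) (Finset.ne_of_mem_erase hk).symm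
      linarith
    have hne : (S.erase n).Nonempty := by
      rw [← Finset.card_pos, Finset.card_erase_of_mem hnS]
      omega
    obtain ⟨m, hm⟩ := hne
    rw [← Finset.add_sum_erase S _ hnS, ← Finset.add_sum_erase (S.erase n) _ hm]
    have h2 := hp n hnS m (Finset.mem_of_mem_erase hm) (Finset.ne_of_mem_erase hm).symm
    have h3 : 0 ≤ ∑ k ∈ (S.erase n).erase m, U k :=
      Finset.sum_nonneg fun k hk => hpos k (Finset.mem_of_mem_erase hk)
    linarith

/-- C6: strict maximum at `a`. -/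
theorem max_pos (hd : 2 ≤ d) {X U : Fin d → ℝ} (h : Cham X U) {a : Fin d} (ha : ∀ k, k ≠ a → X k < X a) : 0 < U a := by
  have h1 : ∀ k, k ≠ a → |U k| ≤ U a := fun k hk => h.dom a k (ha k hk)
  obtain ⟨k, hk⟩ : ∃ k : Fin d, k ≠ a := by
    have : Nontrivial (Fin d) := Fin.nontrivial_iff_two_le.2 hd
    exact exists_ne a
  have h0 : 0 ≤ U a := (abs_nonneg _).trans (h1 k hk)
  refine lt_of_le_of_ne h0 fun he => ?_
  obtain ⟨i, hi⟩ := cham_ne h
  apply hi
  by_cases hia : i = a
  · rw [hia, ← he]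
  · have h2 := h1 i hia
    rw [← he] at h2
    exact abs_nonpos_iff.1 h2

/-- C7: `a` in the lowest class, not all equal; flip `a`. -/
theorem flip_low (hd : 4 ≤ d) {X U : Fin d → ℝ} (h : Cham X U) (hX : ∀ i, 0 < X i) {a : Fin d}
    (ha : ∀ k, X a ≤ X k) (hne : ∃ k, X a < X k) {δ : ℝ} (hδ : 0 ≤ δ) (hδ1 : δ < 1) :
    0 < ∑ i ∈ univ.erase a, U i - δ * U a := by
  have hTne : (univ.filter (fun k => X a < X k)).Nonempty := by
    obtain ⟨k, hk⟩ := hne
    exact ⟨k, Finset.mem_filter.2 ⟨Finset.mem_univ _, hk⟩⟩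
  obtain ⟨i, hi, hmax⟩ := Finset.exists_max_image _ U hTne
  have hia : X a < X i := (Finset.mem_filter.1 hi).2
  have hia' : i ≠ a := fun e => by rw [e] at hia; exact lt_irrefl _ hia
  have h1 : |U a| ≤ U i := h.dom i a hia
  have hUi : 0 < U i := by
    refine lt_of_le_of_ne ((abs_nonneg _).trans h1) fun he => ?_
    obtain ⟨k, hk⟩ := cham_ne h
    apply hk
    rcases (ha k).eq_or_lt with hak | hak
    · have h2 := h.dom i k (by rw [← hak]; exact hia)
      rw [← he] at h2
      exact abs_nonpos_iff.1 h2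
    · have h2 := hmax k (Finset.mem_filter.2 ⟨Finset.mem_univ _, hak⟩)
      have h3 := h.dom k a hak
      have h4 := abs_nonneg (U a)
      linarith
  have hcard : 2 ≤ ((univ.erase a).erase i).card := by
    rw [Finset.card_erase_of_mem (Finset.mem_erase.2 ⟨hia', Finset.mem_univ _⟩),
      Finset.card_erase_of_mem (Finset.mem_univ _), Finset.card_univ, Fintype.card_fin]
    omega
  have h2 : 0 ≤ ∑ k ∈ (univ.erase a).erase i, U k := by
    refine pair_sum_nonneg (fun k _ l _ hkl => h.pair k l hkl ?_) hcard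
    have := hX k
    have := hX l
    linarith
  rw [← Finset.add_sum_erase (univ.erase a) _ (Finset.mem_erase.2 ⟨hia', Finset.mem_univ _⟩)]
  have h3 : δ * U a ≤ δ * U i := mul_le_mul_of_nonneg_left ((le_abs_self _).trans h1) hδ
  have h4 : δ * U i < U i := by
    have := mul_lt_mul_of_pos_right hδ1 hUi
    linarith
  linarith

/-- C8: `a` above the lowest class, not the only maximum; flip `j`. -/
theorem flip_other (hd : 5 ≤ d) {X U : Fin d → ℝ} (h : Cham X U) (hX : ∀ i, 0 < X i) {a i j : Fin d}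
    (hia : i ≠ a) (hi : X a ≤ X i) (hj : ∀ k, X j ≤ X k) (hja : X j < X a) {δ : ℝ} (hδ : 0 < δ) :
    0 < δ * U a - U j + ∑ k ∈ (univ.erase a).erase j, U k := by
  have hij : X j < X i := lt_of_lt_of_le hja hi
  have hij' : i ≠ j := fun e => by rw [e] at hij; exact lt_irrefl _ hij
  have haj' : j ≠ a := fun e => by rw [e] at hja; exact lt_irrefl _ hja
  have hUa : |U j| ≤ U a := h.dom a j hja
  have hUi : |U j| ≤ U i := h.dom i j hij
  have habs := abs_nonneg (U j)
  have hle := le_abs_self (U j)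
  have hmem : i ∈ (univ.erase a).erase j :=
    Finset.mem_erase.2 ⟨hij', Finset.mem_erase.2 ⟨hia, Finset.mem_univ _⟩⟩
  have hcard : 2 ≤ (((univ.erase a).erase j).erase i).card := by
    rw [Finset.card_erase_of_mem hmem,
      Finset.card_erase_of_mem (Finset.mem_erase.2 ⟨haj', Finset.mem_univ _⟩),
      Finset.card_erase_of_mem (Finset.mem_univ _), Finset.card_univ, Fintype.card_fin]
    omega
  have hrest : 0 ≤ ∑ k ∈ ((univ.erase a).erase j).erase i, U k := by
    refine pair_sum_nonneg (fun k _ l _ hkl => h.pair k l hkl ?_) hcard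
    have := hX k
    have := hX l
    linarith
  rw [← Finset.add_sum_erase _ _ hmem]
  by_contra hcon
  push Not at hcon
  have hδa : 0 ≤ δ * U a := mul_nonneg hδ.le (habs.trans hUa)
  have hUa0 : U a = 0 := by
    have h1 : δ * U a = 0 := by linarith
    rcases mul_eq_zero.1 h1 with h2 | h2
    · exact absurd h2 hδ.ne'
    · exact h2
  have hUj0 : U j = 0 := by
    rw [hUa0] at hUa
    exact abs_nonpos_iff.1 hUa
  rw [hUa0, hUj0] at hcon
  rw [hUj0, abs_zero] at hUi
  have hUi0 : U i = 0 := by linarith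
  have hrest0 : ∑ k ∈ ((univ.erase a).erase j).erase i, U k = 0 := by linarith
  have hlow : ∀ k, X k < X a → U k = 0 := by
    intro k hk
    have h1 := h.dom a k hk
    rw [hUa0] at h1
    exact abs_nonpos_iff.1 h1
  have hnn : ∀ k, 0 ≤ U k := by
    intro k
    by_cases hk : X k < X a
    · rw [hlow k hk]
    · have h1 := h.dom k j (lt_of_lt_of_le hja (not_lt.1 hk))
      exact (abs_nonneg _).trans h1
  have hz := (Finset.sum_eq_zero_iff_of_nonneg (fun k _ => hnn k)).1 hrest0
  obtain ⟨k, hk⟩ := cham_ne h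
  apply hk
  by_cases h1 : k = a
  · rw [h1]; exact hUa0
  by_cases h2 : k = j
  · rw [h2]; exact hUj0
  by_cases h3 : k = i
  · rw [h3]; exact hUi0
  exact hz k (Finset.mem_erase.2 ⟨h3, Finset.mem_erase.2 ⟨h2, Finset.mem_erase.2 ⟨h1, Finset.mem_univ _⟩⟩⟩)

/-- C9: three numbers or more, all pair sums nonnegative, total nonpositive: all zero. -/
theorem all_zero {U : Fin d → ℝ} {S : Finset (Fin d)} (hp : ∀ i ∈ S, ∀ j ∈ S, i ≠ j → 0 ≤ U i + U j)
    (hS : 3 ≤ S.card) (h0 : ∑ i ∈ S, U i ≤ 0) : ∀ i ∈ S, U i = 0 := by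
  have hneg : ∀ i ∈ S, U i ≤ 0 := by
    intro i hi
    have h1 : 0 ≤ ∑ k ∈ S.erase i, U k := by
      refine pair_sum_nonneg (fun k hk l hl hkl =>
        hp k (Finset.mem_of_mem_erase hk) l (Finset.mem_of_mem_erase hl) hkl) ?_
      rw [Finset.card_erase_of_mem hi]
      omega
    rw [← Finset.add_sum_erase S _ hi] at h0
    linarith
  intro i hi
  have hne : (S.erase i).Nonempty := by
    rw [← Finset.card_pos, Finset.card_erase_of_mem hi]
    omega
  obtain ⟨m, hm⟩ := hne
  have h2 := hp i hi m (Finset.mem_of_mem_erase hm) (Finset.ne_of_mem_erase hm).symm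
  have h3 := hneg i hi
  have h4 := hneg m (Finset.mem_of_mem_erase hm)
  linarith

end Pool.Agent.Lib.MP_5e7226_co.DX
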