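import Pool.Agent.Lib.MP_5e7226_co.DX.Defs

set_option autoImplicit false

/-! Row DX-R (helper18): the sign vectors with a distinguished place. -/

namespace Pool.Agent.Lib.MP_5e7226_co.DX.RR

variable {n : ℕ}

/-- the sign vector with value `a` at the start and sign changes exactly at the places of `C` -/
def eps (a : Bool) (C : Finset (Fin (n+1))) (k : Fin (n+1)) : Bool :=
  xor a (decide (Odd (C.filter (· ≤ k)).card))

theorem eps_empty (a : Bool) (k : Fin (n+1)) : eps a ∅ k = a := by
  simp [eps]

theorem eps_insert_lt (a : Bool) (C : Finset (Fin (n+1))) {x k : Fin (n+1)} (h : k < x) :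
    eps a (insert x C) k = eps a C k := by
  unfold eps
  rw [Finset.filter_insert, if_neg (not_le.mpr h)]

theorem eps_insert_ge (a : Bool) (C : Finset (Fin (n+1))) {x k : Fin (n+1)} (hx : x ∉ C)
    (h : x ≤ k) : eps a (insert x C) k = !(eps a C k) := by
  unfold eps
  rw [Finset.filter_insert, if_pos h, Finset.card_insert_of_notMem (by simp [hx])]
  by_cases ho : Odd (C.filter (· ≤ k)).card
  · have : ¬ Odd ((C.filter (· ≤ k)).card + 1) := by
      rw [Nat.odd_add_one]; simpa using ho
    simp [ho, this]
  · have : Odd ((C.filter (· ≤ k)).card + 1) := by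
      rw [Nat.odd_add_one]; exact ho
    simp [ho, this]

/-- every pattern on `A` is the pattern of a vector with its sign changes in `A` minus its first
element -/
theorem exists_changes (s : Fin (n+1) → Bool) (A : Finset (Fin (n+1))) (hA : A.Nonempty) :
    ∃ C : Finset (Fin (n+1)), C ⊆ A.erase (A.min' hA) ∧
      ∀ p ∈ A, eps (s (A.min' hA)) C p = s p := by
  induction A using Finset.induction_on_max with
  | empty => exact absurd hA (by simp)
  | insert x B hx ih =>
    by_cases hB : B.Nonempty
    · obtain ⟨C, hC, hCs⟩ := ih hB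
      have hmin : (insert x B).min' hA = B.min' hB := by
        apply le_antisymm
        · exact Finset.min'_le _ _ (Finset.mem_insert_of_mem (Finset.min'_mem _ _))
        · apply Finset.le_min'
          intro y hy
          rcases Finset.mem_insert.mp hy with h | h
          · rw [h]; exact (hx _ (Finset.min'_mem _ _)).le
          · exact Finset.min'_le _ _ h
      rw [hmin]
      have hxC : x ∉ C := fun h => by
        have := Finset.mem_of_mem_erase (hC h)
        exact lt_irrefl _ (hx _ this)
      have hxm : x ≠ B.min' hB := (hx _ (Finset.min'_mem _ _)).ne'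
      by_cases he : eps (s (B.min' hB)) C x = s x
      · refine ⟨C, ?_, ?_⟩
        · intro y hy
          have := Finset.mem_erase.mp (hC hy)
          exact Finset.mem_erase.mpr ⟨this.1, Finset.mem_insert_of_mem this.2⟩
        · intro p hp
          rcases Finset.mem_insert.mp hp with h | h
          · rw [h]; exact he
          · exact hCs p h
      · refine ⟨insert x C, ?_, ?_⟩
        · intro y hy
          rcases Finset.mem_insert.mp hy with h | h
          · rw [h]; exact Finset.mem_erase.mpr ⟨hxm, Finset.mem_insert_self _ _⟩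
          · have := Finset.mem_erase.mp (hC h)
            exact Finset.mem_erase.mpr ⟨this.1, Finset.mem_insert_of_mem this.2⟩
        · intro p hp
          rcases Finset.mem_insert.mp hp with h | h
          · rw [h, eps_insert_ge _ _ hxC le_rfl]
            cases h1 : eps (s (B.min' hB)) C x <;> cases h2 : s x <;> simp_all
          · rw [eps_insert_lt _ _ (hx _ h)]; exact hCs p h
    · rw [Finset.not_nonempty_iff_eq_empty] at hB
      subst hB
      refine ⟨∅, by simp, ?_⟩
      intro p hp
      have : p = x := by simpa using hp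
      subst this
      rw [eps_empty]
      congr 1

/-- the place of the heavy coordinate -/
def place (C : Finset (Fin (n+1))) : Fin (n+1) := if h : C.Nonempty then C.min' h else 0

/-- all patterns with at most `r` sign changes needed are served by the vectors with at most `r`
changes, heavy at the first change -/
theorem serve (s : Fin (n+1) → Bool) (A C : Finset (Fin (n+1))) (hA : A.Nonempty)
    (hC : C ⊆ A.erase (A.min' hA)) (hCs : ∀ p ∈ A, eps (s (A.min' hA)) C p = s p)
    (r : ℕ) (hr : 1 ≤ r) (hCr : C.card ≤ r) :
    ∃ a : Bool, ∃ D : Finset (Fin (n+1)), 0 ∉ D ∧ D.card ≤ r ∧ place D ∈ A ∧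
      ∀ p ∈ A, eps a D p = s p := by
  by_cases h : C.Nonempty
  · refine ⟨s (A.min' hA), C, ?_, hCr, ?_, hCs⟩
    · intro h0
      have h1 := Finset.mem_erase.mp (hC h0)
      exact h1.1 (le_antisymm (Fin.zero_le _) (Finset.min'_le _ _ h1.2))
    · unfold place
      rw [dif_pos h]
      exact Finset.mem_of_mem_erase (hC (Finset.min'_mem _ _))
  · rw [Finset.not_nonempty_iff_eq_empty] at h
    subst h
    have hconst : ∀ p ∈ A, s p = s (A.min' hA) := fun p hp => by
      have := hCs p hp
      rw [eps_empty] at this
      exact this.symm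
    by_cases h0 : A.min' hA = 0
    · refine ⟨s (A.min' hA), ∅, by simp, by simp, ?_, hCs⟩
      unfold place
      rw [dif_neg (by simp)]
      rw [← h0]; exact Finset.min'_mem _ _
    · refine ⟨!(s (A.min' hA)), {A.min' hA}, ?_, by simpa using hr, ?_, ?_⟩
      · simpa using fun h => h0 h.symm
      · unfold place
        rw [dif_pos (by simp)]
        simp only [Finset.min'_singleton]
        exact Finset.min'_mem _ _
      · intro p hp
        have : ({A.min' hA} : Finset (Fin (n+1))) = insert (A.min' hA) ∅ := by simp
        rw [this, eps_insert_ge _ _ (by simp) (Finset.min'_le _ _ hp), eps_empty, Bool.not_not]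
        exact (hconst p hp).symm

theorem card_small (n r : ℕ) :
    ((((Finset.univ : Finset (Fin (n+1))).erase 0).powerset).filter (fun C => C.card ≤ r)).card
      = ∑ j ∈ Finset.range (r+1), n.choose j := by
  have h1 : ((((Finset.univ : Finset (Fin (n+1))).erase 0).powerset).filter
      (fun C => C.card ≤ r)) =
      (Finset.range (r+1)).biUnion
        (fun j => ((Finset.univ : Finset (Fin (n+1))).erase 0).powersetCard j) := by
    ext C
    simp only [Finset.mem_filter, Finset.mem_powerset, Finset.mem_biUnion, Finset.mem_range,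
      Finset.mem_powersetCard]
    constructor
    · rintro ⟨h1, h2⟩
      exact ⟨C.card, by omega, h1, rfl⟩
    · rintro ⟨j, hj, h1, h2⟩
      exact ⟨h1, by omega⟩
  rw [h1, Finset.card_biUnion]
  · apply Finset.sum_congr rfl
    intro j _
    rw [Finset.card_powersetCard]
    simp
  · intro i _ j _ hij
    exact Finset.pairwise_disjoint_powersetCard _ hij

theorem R_odd (h : ℕ) (hh : 2 ≤ h) :
    ∃ R : Finset ((Fin (2*h+1) → Bool) × Fin (2*h+1)), R.card + 6 ≤ 2^(2*h) ∧
      ∀ A : Finset (Fin (2*h+1)), A.Nonempty → 2 * A.card ≤ 2*h+1 → ∀ s : Fin (2*h+1) → Bool,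
        ∃ p ∈ R, p.2 ∈ A ∧ ∀ i ∈ A, p.1 i = s i := by
  classical
  refine ⟨((Finset.univ : Finset Bool) ×ˢ
    ((((Finset.univ : Finset (Fin (2*h+1))).erase 0).powerset).filter
      (fun C => C.card ≤ h-1))).image (fun p => (eps p.1 p.2, place p.2)), ?_, ?_⟩
  · have h1 := Finset.card_image_le (s := (Finset.univ : Finset Bool) ×ˢ
      ((((Finset.univ : Finset (Fin (2*h+1))).erase 0).powerset).filter
      (fun C => C.card ≤ h-1))) (f := fun p => (eps p.1 p.2, place p.2))
    rw [Finset.card_product, card_small, Finset.card_univ, Fintype.card_bool] at h1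
    have h2 : 2 * ∑ j ∈ Finset.range (h-1+1), (2*h).choose j + (2*h).choose h = 2^(2*h) := by
      have e1 : h - 1 + 1 = h := by omega
      rw [e1]
      have e2 : ∑ j ∈ Finset.range (2*h+1), (2*h).choose j = 2^(2*h) := Nat.sum_range_choose _
      have e3 : ∑ j ∈ Finset.range (2*h+1), (2*h).choose j =
          ∑ j ∈ Finset.range h, (2*h).choose j + ((2*h).choose h +
            ∑ j ∈ Finset.range h, (2*h).choose (h + 1 + j)) := by
        have : 2*h+1 = h + (1 + h) := by omega
        rw [this, Finset.sum_range_add, Finset.sum_range_add]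
        simp [add_assoc]
      have e4 : ∑ j ∈ Finset.range h, (2*h).choose (h + 1 + j) =
          ∑ j ∈ Finset.range h, (2*h).choose j := by
        rw [← Finset.sum_range_reflect]
        apply Finset.sum_congr rfl
        intro j hj
        rw [Finset.mem_range] at hj
        rw [← Nat.choose_symm (by omega)]
        congr 1
        omega
      omega
    have h3 : 6 ≤ (2*h).choose h := by
      have : Nat.centralBinom 2 ≤ Nat.centralBinom h := by
        clear h1 h2
        induction h, hh using Nat.le_induction with
        | base => exact le_rfl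
        | succ k hk ih =>
          refine ih.trans ?_
          unfold Nat.centralBinom
          have a1 : (2*k).choose k ≤ (2*(k+1)).choose k := Nat.choose_le_choose _ (by omega)
          have a2 : (2*(k+1)).choose k ≤ (2*(k+1)).choose (k+1) := by
            have := Nat.choose_le_middle k (2*(k+1))
            have e : 2*(k+1)/2 = k+1 := by omega
            rwa [e] at this
          exact a1.trans a2
      have e : Nat.centralBinom 2 = 6 := by decide
      rw [e] at this
      exact this
    omega
  · intro A hA hc s
    obtain ⟨C, hC, hCs⟩ := exists_changes s A hA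
    have hcard : C.card ≤ h - 1 := by
      have := Finset.card_le_card hC
      rw [Finset.card_erase_of_mem (Finset.min'_mem _ _)] at this
      omega
    obtain ⟨a, D, h0, h1, h2, h3⟩ := serve s A C hA hC hCs (h-1) (by omega) hcard
    refine ⟨(eps a D, place D), ?_, h2, h3⟩
    rw [Finset.mem_image]
    refine ⟨(a, D), ?_, rfl⟩
    rw [Finset.mem_product]
    refine ⟨Finset.mem_univ _, ?_⟩
    rw [Finset.mem_filter, Finset.mem_powerset]
    refine ⟨?_, h1⟩
    intro y hy
    rw [Finset.mem_erase]
    exact ⟨fun e => h0 (e ▸ hy), Finset.mem_univ _⟩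

theorem three_le_choose (m : ℕ) (hm : 1 ≤ m) : 3 ≤ (2*m+1).choose m := by
  obtain ⟨k, rfl⟩ : ∃ k, m = k + 1 := ⟨m - 1, by omega⟩
  have h1 : (2*(k+1)+1).choose (k+1) = (2*(k+1)).choose k + (2*(k+1)).choose (k+1) :=
    Nat.choose_succ_succ _ _
  have h2 : 1 ≤ (2*(k+1)).choose k := Nat.choose_pos (by omega)
  have h3 : 2 ≤ (2*(k+1)).choose (k+1) := by
    have h4 : 2 ∣ Nat.centralBinom (k+1) := Nat.two_dvd_centralBinom_of_one_le (by omega)
    have h5 : 0 < Nat.centralBinom (k+1) := Nat.centralBinom_pos _
    exact Nat.le_of_dvd h5 h4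
  omega

/-- the change set with `2` replaced by `1` has the same effect from place `2` on and at `0` -/
theorem eps_swap (a : Bool) (C : Finset (Fin (n+1))) (x y : Fin (n+1)) (hx : x ∈ C) (hy : y ∉ C)
    (hxy : y < x) (k : Fin (n+1)) (hk : k < y ∨ x ≤ k) :
    eps a (insert y (C.erase x)) k = eps a C k := by
  have hxe : C = insert x (C.erase x) := (Finset.insert_erase hx).symm
  have hne : y ≠ x := hxy.ne
  rcases hk with hk | hk
  · rw [eps_insert_lt _ _ hk]
    conv_rhs => rw [hxe]
    rw [eps_insert_lt _ _ (hk.trans hxy)]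
  · rw [eps_insert_ge _ _ (by simp [hy]) (hxy.le.trans hk)]
    conv_rhs => rw [hxe]
    rw [eps_insert_ge _ _ (by simp) hk]

theorem R_even (n h : ℕ) (hn : n + 1 = 2 * h) (hh : 3 ≤ h) :
    ∃ R : Finset ((Fin (n+1) → Bool) × Fin (n+1)), R.card + 6 ≤ 2^n ∧
      ∀ A : Finset (Fin (n+1)), A.Nonempty → 2 * A.card ≤ n+1 → (2 * A.card = n+1 → 0 ∈ A) →
        ∀ s : Fin (n+1) → Bool, ∃ p ∈ R, p.2 ∈ A ∧ ∀ i ∈ A, p.1 i = s i := by
  classical
  have v1 : 1 < n + 1 := by omega
  have v2 : 2 < n + 1 := by omega
  set o1 : Fin (n+1) := ⟨1, v1⟩ with ho1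
  set o2 : Fin (n+1) := ⟨2, v2⟩ with ho2
  have h01 : (0 : Fin (n+1)) ≠ o1 := by rw [ho1]; intro h; have := congrArg Fin.val h; simp at this
  have h02 : (0 : Fin (n+1)) ≠ o2 := by rw [ho2]; intro h; have := congrArg Fin.val h; simp at this
  have h12 : o1 ≠ o2 := by rw [ho1, ho2]; intro h; have := congrArg Fin.val h; simp at this
  set E : Finset (Fin (n+1)) := (Finset.univ : Finset (Fin (n+1))).erase 0 with hE
  set P := (E.powerset).filter (fun C => C.card ≤ h-1) with hP
  set B := P.filter (fun C => C.card = h-1 ∧ o2 ∈ C ∧ o1 ∉ C) with hB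
  refine ⟨((Finset.univ : Finset Bool) ×ˢ (P \ B)).image
    (fun p => (eps p.1 p.2, if p.2.card ≤ h-2 then place p.2 else 0)), ?_, ?_⟩
  · have h1 := Finset.card_image_le (s := (Finset.univ : Finset Bool) ×ˢ (P \ B))
      (f := fun p => (eps p.1 p.2, if p.2.card ≤ h-2 then place p.2 else 0))
    rw [Finset.card_product, Finset.card_univ, Fintype.card_bool] at h1
    have h2 : (P \ B).card + B.card = P.card := by
      have := Finset.card_sdiff_add_card_eq_card (Finset.filter_subset
        (fun C => C.card = h-1 ∧ o2 ∈ C ∧ o1 ∉ C) P)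
      simpa [hB] using this
    have h3 : P.card = ∑ j ∈ Finset.range (h-1+1), n.choose j := card_small n (h-1)
    have h4 : ∑ j ∈ Finset.range (h-1+1), n.choose j = 4^(h-1) := by
      have : n = 2*(h-1)+1 := by omega
      rw [this]
      exact Nat.sum_range_choose_halfway _
    have h5 : 2 * 4^(h-1) = 2^n := by
      have : n = 2*(h-1)+1 := by omega
      rw [this, pow_succ, pow_mul]
      norm_num
      ring
    have h6 : 3 ≤ B.card := by
      have e1 : (((E.erase o1).erase o2).powersetCard (h-2)).card = (2*(h-2)+1).choose (h-2) := by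
        rw [Finset.card_powersetCard, Finset.card_erase_of_mem, Finset.card_erase_of_mem]
        · rw [hE, Finset.card_erase_of_mem (Finset.mem_univ _), Finset.card_univ, Fintype.card_fin]
          congr 1
          omega
        · rw [hE, Finset.mem_erase]; exact ⟨h01.symm, Finset.mem_univ _⟩
        · rw [hE, Finset.mem_erase, Finset.mem_erase]
          exact ⟨h12.symm, h02.symm, Finset.mem_univ _⟩
      have e2 : (((E.erase o1).erase o2).powersetCard (h-2)).card ≤ B.card := by
        apply Finset.card_le_card_of_injOn (fun T => insert o2 T)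
        · intro T hT
          rw [Finset.mem_coe, Finset.mem_powersetCard] at hT
          have ho2T : o2 ∉ T := fun hh => by
            have := hT.1 hh
            simp at this
          have ho1T : o1 ∉ T := fun hh => by
            have := hT.1 hh
            simp at this
          have hc : (insert o2 T).card = h - 1 := by
            rw [Finset.card_insert_of_notMem ho2T, hT.2]; omega
          rw [Finset.mem_coe, hB, Finset.mem_filter, hP, Finset.mem_filter, Finset.mem_powerset]
          refine ⟨⟨?_, hc.le⟩, hc, Finset.mem_insert_self _ _, ?_⟩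
          · intro y hy
            rcases Finset.mem_insert.mp hy with hh | hh
            · rw [hh, hE, Finset.mem_erase]; exact ⟨h02.symm, Finset.mem_univ _⟩
            · exact Finset.mem_of_mem_erase (Finset.mem_of_mem_erase (hT.1 hh))
          · rw [Finset.mem_insert]
            rintro (hh | hh)
            · exact h12 hh
            · exact ho1T hh
        · intro T hT T' hT' he
          rw [Finset.mem_coe, Finset.mem_powersetCard] at hT hT'
          have ho2T : o2 ∉ T := fun hh => by
            have := hT.1 hh
            simp at this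
          have ho2T' : o2 ∉ T' := fun hh => by
            have := hT'.1 hh
            simp at this
          have := congrArg (fun S => Finset.erase S o2) he
          simpa [Finset.erase_insert ho2T, Finset.erase_insert ho2T'] using this
      have e3 := three_le_choose (h-2) (by omega)
      omega
    omega
  · intro A hA hc h0A s
    obtain ⟨C, hC, hCs⟩ := exists_changes s A hA
    have hcard : C.card ≤ A.card - 1 := by
      have := Finset.card_le_card hC
      rwa [Finset.card_erase_of_mem (Finset.min'_mem _ _)] at this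
    have key : ∀ (a : Bool) (D : Finset (Fin (n+1))), 0 ∉ D → D.card ≤ h-1 →
        ¬ (D.card = h-1 ∧ o2 ∈ D ∧ o1 ∉ D) →
        (eps a D, if D.card ≤ h-2 then place D else 0) ∈
        ((Finset.univ : Finset Bool) ×ˢ (P \ B)).image
          (fun p => (eps p.1 p.2, if p.2.card ≤ h-2 then place p.2 else 0)) := by
      intro a D h0 h1 h2
      rw [Finset.mem_image]
      refine ⟨(a, D), ?_, rfl⟩
      rw [Finset.mem_product]
      refine ⟨Finset.mem_univ _, ?_⟩
      rw [Finset.mem_sdiff, hB, Finset.mem_filter, hP, Finset.mem_filter, Finset.mem_powerset]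
      refine ⟨⟨?_, h1⟩, fun hh => h2 hh.2⟩
      intro y hy
      rw [hE, Finset.mem_erase]
      exact ⟨fun e => h0 (e ▸ hy), Finset.mem_univ _⟩
    by_cases hle : C.card ≤ h - 2
    · obtain ⟨a, D, h0, h1, h2, h3⟩ := serve s A C hA hC hCs (h-2) (by omega) hle
      refine ⟨_, key a D h0 (by omega) (by omega), ?_, h3⟩
      simpa [h1] using h2
    · have hA2 : 2 * A.card = n + 1 := by
        have := hA.card_pos
        omega
      have h0 : (0 : Fin (n+1)) ∈ A := h0A hA2
      have hCc : C.card = h - 1 := by omega
      have hmin : A.min' hA = 0 := le_antisymm (Finset.min'_le _ _ h0) (Fin.zero_le _)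
      have hCe : C = A.erase 0 := by
        rw [hmin] at hC
        apply Finset.eq_of_subset_of_card_le hC
        rw [Finset.card_erase_of_mem h0]
        omega
      have h0C : (0 : Fin (n+1)) ∉ C := by rw [hCe]; simp
      by_cases hb : o2 ∈ C ∧ o1 ∉ C
      · have h1A : o1 ∉ A := fun hh => hb.2 (by rw [hCe, Finset.mem_erase]; exact ⟨h01.symm, hh⟩)
        have hlt : o1 < o2 := by rw [ho1, ho2]; simp
        have hD0 : (0 : Fin (n+1)) ∉ insert o1 (C.erase o2) := by
          rw [Finset.mem_insert]
          rintro (hh | hh)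
          · exact h01 hh
          · exact h0C (Finset.mem_of_mem_erase hh)
        have hDc : (insert o1 (C.erase o2)).card = h - 1 := by
          rw [Finset.card_insert_of_notMem (fun hh => hb.2 (Finset.mem_of_mem_erase hh)),
            Finset.card_erase_of_mem hb.1]
          omega
        refine ⟨_, key (s (A.min' hA)) (insert o1 (C.erase o2)) hD0 hDc.le
          (fun hh => hh.2.2 (Finset.mem_insert_self _ _)), ?_, ?_⟩
        · have : ¬ ((insert o1 (C.erase o2)).card ≤ h - 2) := by omega
          simp only [this, if_false]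
          exact h0
        · intro i hi
          have hsw := eps_swap (s (A.min' hA)) C o2 o1 hb.1 hb.2 hlt i (by
            by_cases hi0 : i = 0
            · left; rw [hi0]; exact lt_of_le_of_ne (Fin.zero_le _) h01
            · right
              have hi1 : i ≠ o1 := fun e => h1A (e ▸ hi)
              rw [ho2, Fin.le_def]
              have a1 : i.val ≠ 0 := fun e => hi0 (Fin.ext (by simpa using e))
              have a2 : i.val ≠ 1 := fun e => hi1 (Fin.ext (by simpa [ho1] using e))
              show 2 ≤ i.val
              omega)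
          show eps (s (A.min' hA)) (insert o1 (C.erase o2)) i = s i
          rw [hsw]
          exact hCs i hi
      · refine ⟨_, key (s (A.min' hA)) C h0C hCc.le (fun hh => hb hh.2), ?_, hCs⟩
        have : ¬ (C.card ≤ h - 2) := by omega
        simp only [this, if_false]
        exact h0

/-- **Row DX_R.** Sign vectors with one heavy place serving all sign patterns on at most half of
the coordinates. -/
theorem exists_R (n : ℕ) (hn : 4 ≤ n) :
    ∃ R : Finset ((Fin (n+1) → Bool) × Fin (n+1)), R.card + 6 ≤ 2^n ∧
      ∀ A : Finset (Fin (n+1)), A.Nonempty → 2 * A.card ≤ n+1 → (2 * A.card = n+1 → 0 ∈ A) →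
        ∀ s : Fin (n+1) → Bool, ∃ p ∈ R, p.2 ∈ A ∧ ∀ i ∈ A, p.1 i = s i := by
  rcases Nat.even_or_odd' (n+1) with ⟨h, hh | hh⟩
  · exact R_even n h hh (by omega)
  · have : n = 2*h := by omega
    subst this
    obtain ⟨R, hR1, hR2⟩ := R_odd h (by omega)
    exact ⟨R, hR1, fun A hA hc _ s => hR2 A hA hc s⟩

end Pool.Agent.Lib.MP_5e7226_co.DX.RR

namespace Pool.Agent.Lib.MP_5e7226_co.DX

open Finset

theorem exists_R {d : ℕ} (hd : 5 ≤ d) : ∃ R : Finset ((Fin d → Bool) × Fin d), R.card + 6 ≤ 2 ^ (d - 1) ∧
    ∀ A : Finset (Fin d), A.Nonempty → 2 * A.card ≤ d → (2 * A.card = d → (⟨0, by omega⟩ : Fin d) ∈ A) →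
      ∀ s : Fin d → Bool, ∃ p ∈ R, p.2 ∈ A ∧ ∀ k ∈ A, p.1 k = s k := by
  obtain ⟨n, rfl⟩ : ∃ n, d = n + 1 := ⟨d - 1, by omega⟩
  obtain ⟨R, h1, h2⟩ := RR.exists_R n (by omega)
  exact ⟨R, by simpa using h1, fun A hA h3 h4 s => h2 A hA h3 h4 s⟩

end Pool.Agent.Lib.MP_5e7226_co.DX
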