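import Pool.Agent.Lib.MP_5e7226_co.DX.C
import Pool.Agent.Lib.MP_5e7226_co.DX.R

set_option autoImplicit false

/-! The core: kappa and delta. -/

namespace Pool.Agent.Lib.MP_5e7226_co.DX

open Finset

variable {d : ℕ}

/-- All `|x k|` are equal, the product of the coordinates has the sign `-κ`, and `x a * u a ≥ 1`. -/
def Bad (G : Set ((Fin d → ℝ) × (Fin d → ℝ))) (a : Fin d) (κ : ℝ) : Prop :=
  ∃ q ∈ G, (∀ k, |q.1 k| = |q.1 a|) ∧ κ * ∏ k, q.1 k < 0 ∧ 1 ≤ q.1 a * q.2 a

theorem prod_sg_or (s : Fin d → Bool) :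
    ∏ i, (if s i then (1 : ℝ) else -1) = 1 ∨ ∏ i, (if s i then (1 : ℝ) else -1) = -1 := by
  classical
  refine Finset.prod_induction (fun i => if s i then (1 : ℝ) else -1) (fun r => r = 1 ∨ r = -1) ?_ (Or.inl rfl)
    (fun i _ => by cases s i <;> simp)
  rintro a b (rfl | rfl) (rfl | rfl) <;> simp

theorem prod_sg_flip (s : Fin d → Bool) (j : Fin d) :
    ∏ i, (if Function.update s j (!s j) i then (1 : ℝ) else -1) = - ∏ i, (if s i then (1 : ℝ) else -1) := by
  classical
  rw [← Finset.mul_prod_erase univ (fun i => if s i then (1 : ℝ) else -1) (mem_univ j),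
    ← Finset.mul_prod_erase univ (fun i => if Function.update s j (!s j) i then (1 : ℝ) else -1) (mem_univ j),
    Function.update_self]
  have h : ∏ i ∈ univ.erase j, (if Function.update s j (!s j) i then (1 : ℝ) else -1) =
      ∏ i ∈ univ.erase j, (if s i then (1 : ℝ) else -1) := by
    refine prod_congr rfl fun i hi => ?_
    rw [Function.update_of_ne (ne_of_mem_erase hi)]
  rw [h]
  cases s j <;> simp

/-- K3 -/
theorem card_parity (hd : 1 ≤ d) (κ : ℝ) (hκ : κ = 1 ∨ κ = -1) :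
    (univ.filter (fun ε : Fin d → Bool => ∏ i, (if ε i then (1 : ℝ) else -1) = κ)).card = 2 ^ (d - 1) := by
  classical
  set j : Fin d := ⟨0, by omega⟩
  set P : (Fin d → Bool) → Prop := fun ε => ∏ i, (if ε i then (1 : ℝ) else -1) = κ with hP
  have h1 : (univ.filter (fun ε => P ε)).card = (univ.filter (fun ε => ¬ P ε)).card := by
    refine card_bij (fun ε _ => Function.update ε j (!ε j)) ?_ ?_ ?_
    · intro ε hε
      simp only [mem_filter, mem_univ, true_and, hP] at hε ⊢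
      rw [prod_sg_flip, hε]
      rcases hκ with h | h <;> rw [h] <;> norm_num
    · intro ε _ ε' _ h
      have h2 := congrArg (fun s => Function.update s j (!s j)) h
      simpa using h2
    · intro ε hε
      refine ⟨Function.update ε j (!ε j), ?_, ?_⟩
      · simp only [mem_filter, mem_univ, true_and, hP] at hε ⊢
        rw [prod_sg_flip]
        rcases prod_sg_or ε with h | h <;> rcases hκ with h' | h' <;> rw [h, h'] at hε <;> rw [h, h'] <;> simp_all
      · simp
  have h2 : (univ.filter (fun ε => P ε)).card + (univ.filter (fun ε => ¬ P ε)).card = 2 ^ d := by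
    rw [card_filter_add_card_filter_not, card_univ, Fintype.card_fun, Fintype.card_bool, Fintype.card_fin]
  have h3 : 2 ^ d = 2 ^ (d - 1) + 2 ^ (d - 1) := by
    rw [← two_mul, ← pow_succ']
    congr 1
    omega
  change (univ.filter (fun ε => P ε)).card = 2 ^ (d - 1)
  omega

/-- K1 -/
theorem exists_delta {G : Set ((Fin d → ℝ) × (Fin d → ℝ))} (hG : Dual G) {a : Fin d} {κ : ℝ} (hκ : κ = 1 ∨ κ = -1)
    (hb : ¬ Bad G a κ) : ∃ δ : ℝ, 0 < δ ∧ δ < 1 ∧ ∀ q ∈ G, (∀ k, |q.1 k| = |q.1 a|) → κ * ∏ k, q.1 k < 0 →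
      (1 + δ) * (q.1 a * q.2 a) < 1 := by
  classical
  set S : Set ((Fin d → ℝ) × (Fin d → ℝ)) := G ∩ {q | (∀ k, |q.1 k| = |q.1 a|) ∧ κ * ∏ k, q.1 k ≤ 0} with hS
  have hScl : IsClosed {q : (Fin d → ℝ) × (Fin d → ℝ) | (∀ k, |q.1 k| = |q.1 a|) ∧ κ * ∏ k, q.1 k ≤ 0} := by
    have h1 : ∀ k : Fin d, Continuous (fun q : (Fin d → ℝ) × (Fin d → ℝ) => q.1 k) :=
      fun k => (continuous_apply k).comp continuous_fst
    refine IsClosed.inter ?_ ?_
    · have : {q : (Fin d → ℝ) × (Fin d → ℝ) | ∀ k, |q.1 k| = |q.1 a|} =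
          ⋂ k, {q : (Fin d → ℝ) × (Fin d → ℝ) | |q.1 k| = |q.1 a|} := by
        ext q; simp
      change IsClosed {q : (Fin d → ℝ) × (Fin d → ℝ) | ∀ k, |q.1 k| = |q.1 a|}
      rw [this]
      exact isClosed_iInter fun k => isClosed_eq (h1 k).abs (h1 a).abs
    · exact isClosed_le (continuous_const.mul (continuous_finsetProd _ fun k _ => h1 k)) continuous_const
  have hSc : IsCompact S := hG.compact.inter_right hScl
  -- on `S` the product is not zero
  have hlt : ∀ q ∈ S, κ * ∏ k, q.1 k < 0 := by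
    rintro q ⟨hq, he, hp⟩
    refine lt_of_le_of_ne hp ?_
    have ht0 : q.1 a ≠ 0 := by
      intro h0
      have hz : ∀ k, q.1 k = 0 := fun k => by rw [← abs_eq_zero, he k, h0, abs_zero]
      have h1 := hG.one q hq
      rw [Finset.sum_eq_zero (fun i _ => by rw [hz i, mul_zero])] at h1
      exact zero_ne_one h1
    have hk : ∀ k, q.1 k ≠ 0 := fun k => by rw [← abs_ne_zero, he k, abs_ne_zero]; exact ht0
    have h2 : ∏ k, q.1 k ≠ 0 := prod_ne_zero_iff.2 fun k _ => hk k
    have h3 : κ ≠ 0 := by rcases hκ with h | h <;> rw [h] <;> norm_num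
    exact mul_ne_zero h3 h2
  by_cases hne : S.Nonempty
  · have hcont : Continuous (fun q : (Fin d → ℝ) × (Fin d → ℝ) => q.1 a * q.2 a) :=
      ((continuous_apply a).comp continuous_fst).mul ((continuous_apply a).comp continuous_snd)
    obtain ⟨q₀, hq₀, hmax⟩ := hSc.exists_isMaxOn hne hcont.continuousOn
    have hM : q₀.1 a * q₀.2 a < 1 := by
      by_contra hcon
      push Not at hcon
      exact hb ⟨q₀, hq₀.1, hq₀.2.1, hlt q₀ hq₀, hcon⟩
    set M := q₀.1 a * q₀.2 a with hMdef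
    refine ⟨min (1 / 2) ((1 - M) / 2), lt_min (by norm_num) (by linarith), lt_of_le_of_lt (min_le_left _ _) (by norm_num), ?_⟩
    intro q hq he hp
    have h1 : q.1 a * q.2 a ≤ M := hmax (show q ∈ S from ⟨hq, he, hp.le⟩)
    have h2 : min (1 / 2) ((1 - M) / 2) ≤ (1 - M) / 2 := min_le_right _ _
    have h3 : 0 < min (1 / 2) ((1 - M) / 2) := lt_min (by norm_num) (by linarith)
    have h4 : (1 + min (1 / 2) ((1 - M) / 2)) * (q.1 a * q.2 a) ≤ (1 + min (1 / 2) ((1 - M) / 2)) * M :=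
      mul_le_mul_of_nonneg_left h1 (by linarith)
    refine lt_of_le_of_lt h4 ?_
    rcases le_or_gt M 0 with h5 | h5
    · have := mul_nonpos_of_nonneg_of_nonpos (show 0 ≤ 1 + min (1 / 2) ((1 - M) / 2) by linarith) h5
      linarith
    · have h6 : min (1 / 2) ((1 - M) / 2) * M ≤ (1 - M) / 2 * M := mul_le_mul_of_nonneg_right h2 h5.le
      nlinarith
  · refine ⟨1 / 2, by norm_num, by norm_num, fun q hq he hp => ?_⟩
    exact absurd ⟨q, hq, he, hp.le⟩ hne

theorem exists_signs (x : Fin d → ℝ) : ∃ s : Fin d → ℝ, (∀ i, s i = 1 ∨ s i = -1) ∧ ∀ i, s i * x i = |x i| := by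
  refine ⟨fun i => if 0 ≤ x i then 1 else -1, fun i => ?_, fun i => ?_⟩
  · by_cases h : 0 ≤ x i <;> simp [h]
  · by_cases h : 0 ≤ x i
    · simp [h, abs_of_nonneg h]
    · push Not at h
      simp [not_le.2 h, abs_of_neg h]

theorem bad_u (hd : 4 ≤ d) {G : Set ((Fin d → ℝ) × (Fin d → ℝ))} (hG : Dual G) {a : Fin d}
    {q : (Fin d → ℝ) × (Fin d → ℝ)} (hq : q ∈ G) (h : ∀ k, |q.1 k| = |q.1 a|) (h1 : 1 ≤ q.1 a * q.2 a) :
    0 < |q.1 a| ∧ (∀ k, k ≠ a → q.2 k = 0) ∧ |q.2 a| = 1 / |q.1 a| := by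
  obtain ⟨s, hs, hsx⟩ := exists_signs q.1
  have hC := cham hG (x := q.1) (u := q.2) hq hs hsx
  have hone := hC.one
  simp only [h] at hone
  rw [← sum_mul] at hone
  have ht0 : |q.1 a| ≠ 0 := by
    intro h0
    rw [h0, mul_zero] at hone
    exact zero_ne_one hone
  have ht : 0 < |q.1 a| := lt_of_le_of_ne (abs_nonneg _) (Ne.symm ht0)
  have hss : ∀ i, s i * s i = 1 := by
    intro i
    rcases hs i with h2 | h2 <;> rw [h2] <;> norm_num
  have hxu : q.1 a * q.2 a = s a * q.2 a * |q.1 a| := by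
    rw [← hsx a]
    have := hss a
    linear_combination (-(q.1 a * q.2 a)) * this
  have hpair : ∀ i ∈ univ.erase a, ∀ j ∈ univ.erase a, i ≠ j → 0 ≤ s i * q.2 i + s j * q.2 j := by
    intro i _ j _ hij
    refine hC.pair i j hij ?_
    simp only [h]
    linarith
  have hle : ∑ i ∈ univ.erase a, s i * q.2 i ≤ 0 := by
    rw [← Finset.add_sum_erase univ (fun i => s i * q.2 i) (mem_univ a)] at hone
    by_contra hcon
    push Not at hcon
    have := mul_pos hcon ht
    nlinarith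
  have hz := all_zero hpair (by rw [card_erase_of_mem (mem_univ a), card_univ, Fintype.card_fin]; omega) hle
  have hz' : ∀ k, k ≠ a → q.2 k = 0 := by
    intro k hk
    have h2 := hz k (mem_erase.2 ⟨hk, mem_univ k⟩)
    have h3 := hss k
    have : s k * (s k * q.2 k) = 0 := by rw [h2, mul_zero]
    rw [← mul_assoc, h3, one_mul] at this
    exact this
  refine ⟨ht, hz', ?_⟩
  have h4 := hG.one q hq
  rw [Finset.sum_eq_single a (fun k _ hk => by rw [hz' k hk, zero_mul]) (fun h5 => absurd (mem_univ a) h5)] at h4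
  rw [eq_div_iff ht0, ← abs_mul, h4, abs_one]

/-- Comparison of the two radii. -/
theorem radius_le (hd : 2 ≤ d) {G : Set ((Fin d → ℝ) × (Fin d → ℝ))} (hG : Dual G) {a : Fin d}
    {q q' : (Fin d → ℝ) × (Fin d → ℝ)} (hq : q ∈ G) (hq' : q' ∈ G) (hz : ∀ k, k ≠ a → q.2 k = 0) :
    |q.2 a| * |q'.1 a| ≤ 1 := by
  classical
  obtain ⟨b, hb⟩ : ∃ b : Fin d, b ≠ a := by
    by_contra hcon
    push Not at hcon
    have h1 : (⟨0, by omega⟩ : Fin d) = ⟨1, by omega⟩ := by rw [hcon ⟨0, by omega⟩, hcon ⟨1, by omega⟩]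
    simp at h1
  have key : ∀ c : ℝ, (c = 1 ∨ c = -1) → q.2 a * (c * q'.1 a) ≤ 1 := by
    intro c hc
    have h1 := hG.le q hq q' hq' (Equiv.refl _) (fun i => if i = a ∨ i = b then c else 1) (fun i => by
      by_cases h : i = a ∨ i = b
      · rw [if_pos h]; exact hc
      · rw [if_neg h]; exact Or.inl rfl) (by
      rw [← Finset.mul_prod_erase univ _ (mem_univ a),
        ← Finset.mul_prod_erase (univ.erase a) _ (mem_erase.2 ⟨hb, mem_univ b⟩)]
      have h2 : ∏ i ∈ (univ.erase a).erase b, (if i = a ∨ i = b then c else (1 : ℝ)) = 1 := by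
        refine prod_eq_one fun i hi => ?_
        rw [if_neg]
        rintro (h | h)
        · exact ne_of_mem_erase (mem_of_mem_erase hi) h
        · exact ne_of_mem_erase hi h
      rw [h2]
      simp only [true_or, or_true, if_true, mul_one]
      rcases hc with h | h <;> rw [h] <;> norm_num)
    rw [Finset.sum_eq_single a (fun k _ hk => by rw [hz k hk, zero_mul]) (fun h5 => absurd (mem_univ a) h5)] at h1
    simpa using h1
  rw [← abs_mul, abs_le']
  constructor
  · simpa using key 1 (Or.inl rfl)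
  · have := key (-1) (Or.inr rfl)
    linarith

/-- K2 -/
theorem bad_both (hd : 5 ≤ d) {G : Set ((Fin d → ℝ) × (Fin d → ℝ))} (hG : Dual G) {a : Fin d}
    (h1 : Bad G a 1) (h2 : Bad G a (-1)) : ∃ t, CubeData G t := by
  obtain ⟨q, hq, he, hp, h1⟩ := h1
  obtain ⟨q', hq', he', hp', h1'⟩ := h2
  obtain ⟨ht, hz, hu⟩ := bad_u (by omega) hG hq he h1
  obtain ⟨ht', hz', hu'⟩ := bad_u (by omega) hG hq' he' h1'
  have h3 := radius_le (by omega) hG hq hq' hz
  have h4 := radius_le (by omega) hG hq' hq hz'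
  rw [hu, div_mul_eq_mul_div, one_mul, div_le_one ht] at h3
  rw [hu', div_mul_eq_mul_div, one_mul, div_le_one ht'] at h4
  have heq : |q.1 a| = |q'.1 a| := le_antisymm h4 h3
  refine ⟨|q.1 a|, ht, ⟨q, hq, he, by linarith⟩, ⟨q', hq', fun k => by rw [he' k, heq], by linarith⟩, ⟨q, hq, a, hu, hz⟩⟩

end Pool.Agent.Lib.MP_5e7226_co.DX
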