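import Pool.Agent.Lib.MP_5e7226_co.D4.Tri

set_option autoImplicit false

/-! Row D4-A: the triality maps and `Dual4`. -/

namespace Pool.Agent.Lib.MP_5e7226_co.DX

open Finset

theorem to_DX {G : Set ((Fin 4 → ℝ) × (Fin 4 → ℝ))} (hc : IsCompact G) (hG : D4.Dual4 G) : Dual4 G := by
  refine ⟨hc, hG.one, hG.le, ?_, ?_⟩
  · intro p hp r hr
    have h1 : D4.Root r := by
      obtain ⟨z, hz, hz2⟩ := hr
      constructor
      · intro i
        have h2 : z i ^ 2 ≤ 2 := by
          rw [← hz2]
          exact single_le_sum (f := fun k => z k ^ 2) (fun k _ => sq_nonneg (z k)) (mem_univ i)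
        have h3 : z i ≤ 1 := by nlinarith
        have h4 : -1 ≤ z i := by nlinarith
        have h5 : z i = 0 ∨ z i = 1 ∨ z i = -1 := by omega
        rcases h5 with h | h | h
        · left
          rw [hz i, h]
          simp
        · right
          left
          rw [hz i, h]
          simp
        · right
          right
          rw [hz i, h]
          simp
      · have h2 : ((∑ k, z k ^ 2 : ℤ) : ℝ) = ((2 : ℤ) : ℝ) := by rw [hz2]
        push_cast at h2
        rw [← h2]
        exact sum_congr rfl fun k _ => by rw [hz k]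
    have h := hG.inv r h1 p hp
    have e : ∀ x : Fin 4 → ℝ, rfl2 r x = D4.refl r x := fun x => by
      funext k
      unfold rfl2 D4.refl
      congr 2
      exact Finset.sum_congr rfl fun k _ => mul_comm _ _
    rw [e, e]
    exact h
  · intro v hv
    obtain ⟨t, ht, u, hu⟩ := hG.ray v hv
    refine ⟨_, hu, t, ht, ?_⟩
    funext i
    simp

theorem compact_img {T : (Fin 4 → ℝ) → (Fin 4 → ℝ)} (hT : Continuous T) (h1 : ∀ c, T (T c) = c)
    {G : Set ((Fin 4 → ℝ) × (Fin 4 → ℝ))} (hc : IsCompact G) : IsCompact (img T G) := by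
  have h2 : img T G = (fun q : (Fin 4 → ℝ) × (Fin 4 → ℝ) => (T q.1, T q.2)) '' G := by
    ext q
    constructor
    · intro hq
      exact ⟨(T q.1, T q.2), hq, by simp only [h1]⟩
    · rintro ⟨p, hp, rfl⟩
      change (T (T p.1), T (T p.2)) ∈ G
      rw [h1, h1]
      exact hp
  rw [h2]
  exact hc.image ((hT.comp continuous_fst).prodMk (hT.comp continuous_snd))

theorem continuous_Hm : Continuous Hm := by
  refine continuous_pi fun i => ?_
  fin_cases i <;> simp only [Hm, Matrix.cons_val, Fin.zero_eta, Fin.mk_one, Fin.reduceFinMk] <;> fun_prop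

theorem continuous_Nm : Continuous Nm := by
  refine continuous_pi fun i => ?_
  fin_cases i <;> simp only [Nm, Matrix.cons_val, Fin.zero_eta, Fin.mk_one, Fin.reduceFinMk] <;> fun_prop

theorem dual4_Hm {G : Set ((Fin 4 → ℝ) × (Fin 4 → ℝ))} (hG : Dual4 G) : Dual4 (img Hm G) :=
  to_DX (compact_img continuous_Hm D4.Hm_Hm hG.compact) (D4.dual4_Hm (D4.of_DX hG))

theorem dual4_Nm {G : Set ((Fin 4 → ℝ) × (Fin 4 → ℝ))} (hG : Dual4 G) : Dual4 (img Nm G) :=
  to_DX (compact_img continuous_Nm D4.Nm_Nm hG.compact) (D4.dual4_Nm (D4.of_DX hG))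

theorem swp_img (T : (Fin 4 → ℝ) → (Fin 4 → ℝ)) (G : Set ((Fin 4 → ℝ) × (Fin 4 → ℝ))) :
    swp (img T G) = img T (swp G) := rfl

end Pool.Agent.Lib.MP_5e7226_co.DX
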