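import Pool.Agent.Lib.MP_5e7226_co.DX.D4G

set_option autoImplicit false

/-! Row D4-E: cube and cross-body in `E^4`. -/

namespace Pool.Agent.Lib.MP_5e7226_co.DX

open Finset
open Pool.Agent.Lib.MP_5e7226_co.HX (Body compact_GK one_GK le_GK)

private theorem D4E_sgn (r : ℝ) : ∃ s : ℝ, (s = 1 ∨ s = -1) ∧ s * r = |r| := by
  rcases le_total 0 r with h | h
  · exact ⟨1, Or.inl rfl, by rw [one_mul, abs_of_nonneg h]⟩
  · exact ⟨-1, Or.inr rfl, by rw [abs_of_nonpos h]; ring⟩

private theorem D4E_mul {r s : ℝ} (hr : r = 1 ∨ r = -1) (hs : s = 1 ∨ s = -1) : r * s = 1 ∨ r * s = -1 := by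
  rcases hr with rfl | rfl <;> rcases hs with rfl | rfl <;> simp

private theorem D4E_prod (s : Fin 4 → ℝ) (hs : ∀ i, s i = 1 ∨ s i = -1) : ∏ i, s i = 1 ∨ ∏ i, s i = -1 :=
  Finset.prod_induction s (fun r => r = 1 ∨ r = -1) (fun _ _ h1 h2 => D4E_mul h1 h2) (Or.inl rfl)
    (fun i _ => hs i)

/-- The root `e i + s e j`. -/
private def D4E_rt (i j : Fin 4) (s : ℝ) : Fin 4 → ℝ := fun k => if k = i then 1 else if k = j then s else 0

private theorem D4E_rt_root {i j : Fin 4} (hij : i ≠ j) {s : ℝ} (hs : s = 1 ∨ s = -1) : IsRoot (D4E_rt i j s) := by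
  obtain ⟨σ, hσ, hσ2⟩ : ∃ σ : ℤ, (σ : ℝ) = s ∧ σ ^ 2 = 1 := by
    rcases hs with rfl | rfl
    · exact ⟨1, by simp, by norm_num⟩
    · exact ⟨-1, by simp, by norm_num⟩
  refine ⟨fun k => if k = i then 1 else if k = j then σ else 0, ?_, ?_⟩
  · intro k
    unfold D4E_rt
    rw [← hσ]
    push_cast
    rfl
  · have h1 : ∀ k : Fin 4, (if k = i then (1 : ℤ) else if k = j then σ else 0) ^ 2 =
        (if k = i then 1 else 0) + (if k = j then 1 else 0) := by
      intro k
      by_cases h : k = i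
      · subst h
        simp [hij]
      · by_cases h' : k = j
        · subst h'
          simp [h, hσ2]
        · simp [h, h']
    simp only [h1, Finset.sum_add_distrib, Finset.sum_ite_eq', Finset.mem_univ, if_true]
    norm_num

private theorem D4E_rt_sum {i j : Fin 4} (hij : i ≠ j) (s : ℝ) (c : Fin 4 → ℝ) :
    ∑ l, c l * D4E_rt i j s l = c i + s * c j := by
  have h1 : ∀ l : Fin 4, c l * D4E_rt i j s l = (if l = i then c i else 0) + (if l = j then s * c j else 0) := by
    intro l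
    unfold D4E_rt
    by_cases h : l = i
    · subst h
      simp [hij]
    · by_cases h' : l = j
      · subst h'
        simp [h, mul_comm]
      · simp [h, h']
  simp only [h1, Finset.sum_add_distrib, Finset.sum_ite_eq', Finset.mem_univ, if_true]

/-- Two sign changes. -/
private theorem D4E_flip {c : Fin 4 → ℝ} {t : ℝ} (hc : ∀ k, |c k| = t) {i j : Fin 4} (hij : i ≠ j) :
    ∃ r, IsRoot r ∧ rfl2 r c = fun k => if k = i then -c k else if k = j then -c k else c k := by
  obtain ⟨s₁, hs₁, h₁⟩ := D4E_sgn (c i)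
  obtain ⟨s₂, hs₂, h₂⟩ := D4E_sgn (c j)
  have hs := D4E_mul hs₁ hs₂
  have e₁ : s₁ * s₁ = 1 := by rcases hs₁ with rfl | rfl <;> norm_num
  have e₂ : s₂ * s₂ = 1 := by rcases hs₂ with rfl | rfl <;> norm_num
  rw [hc] at h₁ h₂
  have f₁ : c i = s₁ * t := by rw [← h₁, ← mul_assoc, e₁, one_mul]
  have f₂ : c j = s₂ * t := by rw [← h₂, ← mul_assoc, e₂, one_mul]
  refine ⟨D4E_rt i j (s₁ * s₂), D4E_rt_root hij hs, ?_⟩
  funext k
  unfold rfl2
  rw [D4E_rt_sum hij, f₁, f₂]
  have h3 : s₁ * t + s₁ * s₂ * (s₂ * t) = 2 * (s₁ * t) := by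
    linear_combination (s₁ * t) * e₂
  rw [h3]
  unfold D4E_rt
  by_cases h : k = i
  · subst h
    rw [if_pos rfl, if_pos rfl, f₁]
    ring
  · by_cases h' : k = j
    · subst h'
      rw [if_neg h, if_pos rfl, if_neg h, if_pos rfl, f₂]
      linear_combination (-2 * (s₂ * t)) * e₁
    · rw [if_neg h, if_neg h', if_neg h, if_neg h', mul_zero, sub_zero]

/-- All sign vectors with the right product. -/
private theorem D4E_signs {G : Set ((Fin 4 → ℝ) × (Fin 4 → ℝ))}
    (inv : ∀ p ∈ G, ∀ r, IsRoot r → (rfl2 r p.1, rfl2 r p.2) ∈ G) {t : ℝ} (ht : 0 < t) (n : ℕ) :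
    ∀ q ∈ G, (∀ k, |q.1 k| = t) → ∀ s : Fin 4 → ℝ, (∀ i, s i = 1 ∨ s i = -1) →
      0 < (∏ k, q.1 k) * ∏ k, s k → (univ.filter fun k => q.1 k ≠ t * s k).card = n →
      ∃ q' ∈ G, ∀ k, q'.1 k = t * s k := by
  induction n using Nat.strong_induction_on with
  | _ n ih =>
    intro q hq hqt s hs hp hn
    have hval : ∀ k, q.1 k = t * s k ∨ q.1 k = -(t * s k) := by
      intro k
      rcases abs_eq ht.le |>.1 (hqt k) with h | h <;> rcases hs k with h' | h' <;> rw [h, h'] <;> simp
    by_cases hall : ∀ k, q.1 k = t * s k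
    · exact ⟨q, hq, hall⟩
    push Not at hall
    obtain ⟨i, hi⟩ := hall
    obtain ⟨j, hji, hj⟩ : ∃ j, j ≠ i ∧ q.1 j ≠ t * s j := by
      by_contra hcon
      push Not at hcon
      have h1 : ∏ k, q.1 k = -∏ k, (t * s k) := by
        rw [← Finset.mul_prod_erase _ _ (Finset.mem_univ i),
          ← Finset.mul_prod_erase _ (fun k => t * s k) (Finset.mem_univ i), (hval i).resolve_left hi,
          Finset.prod_congr rfl (fun k hk => hcon k (Finset.ne_of_mem_erase hk)), neg_mul]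
      rw [h1, Finset.prod_mul_distrib, neg_mul, mul_assoc] at hp
      have h2 : 0 ≤ (∏ _k : Fin 4, t) * ((∏ k, s k) * ∏ k, s k) :=
        mul_nonneg (Finset.prod_nonneg fun _ _ => ht.le) (mul_self_nonneg _)
      linarith
    obtain ⟨r, hr, hre⟩ := D4E_flip hqt (Ne.symm hji)
    have hlt : (univ.filter fun k => (rfl2 r q.1) k ≠ t * s k).card < n := by
      rw [← hn]
      refine Finset.card_lt_card ⟨?_, ?_⟩
      · intro k hk
        rw [Finset.mem_filter] at hk ⊢
        refine ⟨Finset.mem_univ k, ?_⟩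
        have h3 := hk.2
        rw [hre] at h3
        dsimp only at h3
        by_cases h : k = i
        · rw [h]
          exact hi
        · by_cases h' : k = j
          · rw [h']
            exact hj
          · rwa [if_neg h, if_neg h'] at h3
      · intro hsub
        have h3 : i ∈ univ.filter fun k => (rfl2 r q.1) k ≠ t * s k :=
          hsub (Finset.mem_filter.2 ⟨Finset.mem_univ i, hi⟩)
        rw [Finset.mem_filter] at h3
        apply h3.2
        rw [hre]
        dsimp only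
        rw [if_pos rfl, (hval i).resolve_left hi, neg_neg]
    have habs : ∀ k, |(rfl2 r q.1) k| = t := by
      intro k
      rw [hre]
      dsimp only
      split_ifs
      · rw [abs_neg, hqt]
      · rw [abs_neg, hqt]
      · exact hqt k
    have hprod : ∏ k, (rfl2 r q.1) k = ∏ k, q.1 k := by
      rw [hre]
      rw [← Finset.mul_prod_erase _ _ (Finset.mem_univ i),
        ← Finset.mul_prod_erase _ _ (Finset.mem_erase.2 ⟨hji, Finset.mem_univ j⟩),
        ← Finset.mul_prod_erase _ q.1 (Finset.mem_univ i),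
        ← Finset.mul_prod_erase _ q.1 (Finset.mem_erase.2 ⟨hji, Finset.mem_univ j⟩)]
      rw [if_pos rfl, if_neg hji, if_pos rfl]
      rw [Finset.prod_congr rfl (g := q.1) (fun k hk => by
        rw [Finset.mem_erase, Finset.mem_erase] at hk
        rw [if_neg hk.2.1, if_neg hk.1])]
      ring
    exact ih _ hlt _ (inv q hq r hr) habs s hs (by rw [hprod]; exact hp) rfl

/-- All axis vectors. -/
private theorem D4E_axis {G : Set ((Fin 4 → ℝ) × (Fin 4 → ℝ))}
    (inv : ∀ p ∈ G, ∀ r, IsRoot r → (rfl2 r p.1, rfl2 r p.2) ∈ G) {q : (Fin 4 → ℝ) × (Fin 4 → ℝ)} (hq : q ∈ G)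
    {i₀ : Fin 4} (h0 : ∀ k, k ≠ i₀ → q.2 k = 0) (j : Fin 4) {s : ℝ} (hs : s = 1 ∨ s = -1) :
    ∃ q' ∈ G, q'.2 j = s * q.2 i₀ ∧ ∀ k, k ≠ j → q'.2 k = 0 := by
  have step : ∀ p ∈ G, ∀ i l : Fin 4, i ≠ l → (∀ k, k ≠ i → p.2 k = 0) → ∀ s' : ℝ, (s' = 1 ∨ s' = -1) →
      ∃ q' ∈ G, q'.2 l = s' * p.2 i ∧ ∀ k, k ≠ l → q'.2 k = 0 := by
    intro p hp i l hil h1 s' hs'
    have hneg : -s' = 1 ∨ -s' = -1 := by
      rcases hs' with rfl | rfl <;> norm_num
    refine ⟨_, inv p hp _ (D4E_rt_root hil hneg), ?_, ?_⟩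
    · unfold rfl2
      dsimp only
      rw [D4E_rt_sum hil, h1 l hil.symm]
      unfold D4E_rt
      rw [if_neg hil.symm, if_pos rfl]
      ring
    · intro k hk
      unfold rfl2
      dsimp only
      rw [D4E_rt_sum hil, h1 l hil.symm]
      unfold D4E_rt
      by_cases h : k = i
      · subst h
        rw [if_pos rfl]
        ring
      · rw [if_neg h, if_neg hk, h1 k h]
        ring
  by_cases hj : j = i₀
  · subst hj
    obtain ⟨l, hl⟩ := exists_ne j
    obtain ⟨q₁, hq₁, e₁, z₁⟩ := step q hq j l hl.symm h0 1 (Or.inl rfl)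
    obtain ⟨q₂, hq₂, e₂, z₂⟩ := step q₁ hq₁ l j hl z₁ s hs
    exact ⟨q₂, hq₂, by rw [e₂, e₁, one_mul], z₂⟩
  · exact step q hq i₀ j (Ne.symm hj) h0 s hs

private theorem D4E_fill {b : Module.Basis (Fin 4) ℝ (EuclideanSpace ℝ (Fin 4))}
    {o : EuclideanSpace ℝ (Fin 4)} {K : Set (EuclideanSpace ℝ (Fin 4))} (hc : Convex ℝ K) {t : ℝ} (ht : 0 < t)
    (hv : ∀ s : Fin 4 → ℝ, (∀ i, s i = 1 ∨ s i = -1) → o + ∑ i, (t * s i) • b i ∈ K) (S : Finset (Fin 4)) :
    ∀ c : Fin 4 → ℝ, (∀ i ∈ S, |c i| ≤ t) → (∀ i, i ∉ S → |c i| = t) → o + ∑ i, c i • b i ∈ K := by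
  induction S using Finset.induction_on with
  | empty =>
    intro c _ h2
    have h3 := hv (fun i => c i / t) (fun i => by
      rcases abs_eq ht.le |>.1 (h2 i (Finset.notMem_empty i)) with h | h
      · exact Or.inl (by rw [h, div_self ht.ne'])
      · exact Or.inr (by rw [h, neg_div, div_self ht.ne']))
    simpa only [mul_div_cancel₀ _ ht.ne', mul_div_cancel_left₀ _ ht.ne', mul_div_cancel_right₀ _ ht.ne',
      mul_div_assoc', mul_comm t] using h3
  | insert a S ha ih =>
    intro c h1 h2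
    have hup : ∀ r : ℝ, |r| = t → (o + ∑ i, c i • b i) + (r - c a) • b a ∈ K := by
      intro r hr
      have h3 := ih (Function.update c a r) (fun i hi => by
        have hia : i ≠ a := by
          rintro rfl
          exact ha hi
        rw [Function.update_of_ne hia]
        exact h1 i (Finset.mem_insert_of_mem hi)) (fun i hi => by
        rcases eq_or_ne i a with rfl | h
        · rw [Function.update_self, hr]
        · rw [Function.update_of_ne h]
          exact h2 i (by rw [Finset.mem_insert, not_or]; exact ⟨h, hi⟩))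
      have h4 : ∑ i, Function.update c a r i • b i = ∑ i, c i • b i + (r - c a) • b a := by
        rw [← Finset.add_sum_erase _ _ (Finset.mem_univ a), Function.update_self,
          ← Finset.add_sum_erase _ (fun i => c i • b i) (Finset.mem_univ a),
          Finset.sum_congr rfl (g := fun i => c i • b i) (fun i hi => by
            rw [Function.update_of_ne (Finset.ne_of_mem_erase hi)])]
        rw [sub_smul]
        abel
      rw [h4, ← add_assoc] at h3
      exact h3
    have h5 := abs_le.1 (h1 a (Finset.mem_insert_self a S))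
    have h6 := hc (hup t (abs_of_pos ht)) (hup (-t) (by rw [abs_neg, abs_of_pos ht]))
      (a := (t + c a) / (2 * t)) (b := (t - c a) / (2 * t))
      (div_nonneg (by linarith) (by linarith)) (div_nonneg (by linarith) (by linarith))
      (by field_simp; ring)
    have h7 : ((t + c a) / (2 * t)) • ((o + ∑ i, c i • b i) + (t - c a) • b a) +
        ((t - c a) / (2 * t)) • ((o + ∑ i, c i • b i) + (-t - c a) • b a) = o + ∑ i, c i • b i := by
      rw [smul_add _ (o + ∑ i, c i • b i), smul_add _ (o + ∑ i, c i • b i), smul_smul, smul_smul,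
        add_add_add_comm, ← add_smul, ← add_smul]
      have h8 : (t + c a) / (2 * t) + (t - c a) / (2 * t) = 1 := by field_simp; ring
      have h9 : (t + c a) / (2 * t) * (t - c a) + (t - c a) / (2 * t) * (-t - c a) = 0 := by ring
      rw [h8, h9, one_smul, zero_smul, add_zero]
    rw [h7] at h6
    exact h6

/-- PROOF. As `cube_end` (Gm4.lean), the symmetries through `Dual4.inv`: a point of `G` with all `|x k| = t` gives all points with the same product sign (a reflection in `e_i - s e_j`, `s = -` sign of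
`x i x j`, changes both signs); the last pair gives all `± e_k / t` as functionals. -/
theorem cube_end4 {b : Module.Basis (Fin 4) ℝ (EuclideanSpace ℝ (Fin 4))}
    {o : EuclideanSpace ℝ (Fin 4)} {K : Set (EuclideanSpace ℝ (Fin 4))} (hK : Body o K)
    (hD : Dual4 (GK b o K)) {t : ℝ} (h : CubeData (GK b o K) t) :
    K = {x | ∃ c : Fin 4 → ℝ, (∀ i, |c i| ≤ t) ∧ x = o + ∑ i, c i • b i} := by
  obtain ⟨ht, ⟨q₁, hq₁, ha₁, hb₁⟩, ⟨q₂, hq₂, ha₂, hb₂⟩, q₃, hq₃, i₀, hc, h0⟩ := h
  ext x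
  constructor
  · intro hx
    refine ⟨co b o x, fun k => ?_, by rw [sum_co, add_sub_cancel]⟩
    obtain ⟨s₁, hs₁, hsc₁⟩ := D4E_sgn (co b o x k)
    obtain ⟨s₂, hs₂, hsc₂⟩ := D4E_sgn (q₃.2 i₀)
    obtain ⟨q', hq', e', z'⟩ := D4E_axis hD.inv hq₃ h0 k (D4E_mul hs₁ hs₂)
    obtain ⟨p, -, f, hf, -, rfl⟩ := hq'
    have h1 := hf x hx
    dsimp only at e' z'
    rw [pairing b o f x, Finset.sum_eq_single k (fun i _ hi => by rw [z' i hi, zero_mul])
      (fun h => absurd (Finset.mem_univ k) h), e'] at h1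
    have h4 : s₁ * s₂ * q₃.2 i₀ * co b o x k = (s₁ * co b o x k) * (s₂ * q₃.2 i₀) := by ring
    rw [h4, hsc₁, hsc₂, hc, mul_one_div, div_le_one ht] at h1
    exact h1
  · rintro ⟨c, hct, rfl⟩
    refine D4E_fill hK.convex ht ?_ Finset.univ c (fun i _ => hct i) (fun i hi => absurd (Finset.mem_univ i) hi)
    intro s hs
    have hex : ∃ q' ∈ GK b o K, ∀ k, q'.1 k = t * s k := by
      rcases D4E_prod s hs with h | h
      · exact D4E_signs hD.inv ht _ q₂ hq₂ ha₂ s hs (by rw [h, mul_one]; exact hb₂) rfl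
      · exact D4E_signs hD.inv ht _ q₁ hq₁ ha₁ s hs (by rw [h, mul_neg, mul_one]; exact neg_pos.2 hb₁) rfl
    obtain ⟨_, ⟨p, hp, f, -, -, rfl⟩, e'⟩ := hex
    dsimp only at e'
    have h5 : o + ∑ i, (t * s i) • b i = p := by
      have h6 := sum_co b o p
      simp only [e'] at h6
      rw [h6, add_sub_cancel]
    rw [h5]
    exact hp

theorem cross_end4 {b : Module.Basis (Fin 4) ℝ (EuclideanSpace ℝ (Fin 4))}
    {o : EuclideanSpace ℝ (Fin 4)} {K : Set (EuclideanSpace ℝ (Fin 4))} (hK : Body o K)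
    (hD : Dual4 (swp (GK b o K))) {t : ℝ} (h : CubeData (swp (GK b o K)) t) :
    K = {x | ∃ c : Fin 4 → ℝ, ∑ i, |c i| ≤ 1 / t ∧ x = o + ∑ i, c i • b i} := by
  obtain ⟨ht, ⟨q₁, hq₁, ha₁, hb₁⟩, ⟨q₂, hq₂, ha₂, hb₂⟩, q₃, hq₃, i₀, hc, h0⟩ := h
  ext x
  constructor
  · intro hx
    refine ⟨co b o x, ?_, by rw [sum_co, add_sub_cancel]⟩
    choose s hs hsc using fun i => D4E_sgn (co b o x i)
    have hex : ∃ q' ∈ swp (GK b o K), ∀ k, q'.1 k = t * s k := by
      rcases D4E_prod s hs with h | h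
      · exact D4E_signs hD.inv ht _ q₂ hq₂ ha₂ s hs (by rw [h, mul_one]; exact hb₂) rfl
      · exact D4E_signs hD.inv ht _ q₁ hq₁ ha₁ s hs (by rw [h, mul_neg, mul_one]; exact neg_pos.2 hb₁) rfl
    obtain ⟨q', ⟨p, hp, f, hf, -, e⟩, e'⟩ := hex
    obtain ⟨-, e⟩ := Prod.mk.inj e
    have h1 := hf x hx
    rw [pairing b o f x, ← e] at h1
    simp only [e', mul_assoc, hsc] at h1
    rw [← Finset.mul_sum] at h1
    rw [le_div_iff₀ ht, mul_comm]
    exact h1
  · rintro ⟨c, hc1, rfl⟩
    have hoK : o ∈ K := interior_subset hK.ho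
    have hv : ∀ i, ∃ s : ℝ, (o + s • b i ∈ K) ∧ (t * |c i|) * s = c i := by
      intro i
      obtain ⟨s₁, hs₁, hsc₁⟩ := D4E_sgn (c i)
      obtain ⟨s₂, hs₂, hsc₂⟩ := D4E_sgn (q₃.2 i₀)
      obtain ⟨q', ⟨p, hp, f, -, -, e⟩, e', z'⟩ := D4E_axis hD.inv hq₃ h0 i (D4E_mul hs₁ hs₂)
      obtain ⟨e, -⟩ := Prod.mk.inj e
      rw [e] at e' z'
      refine ⟨(s₁ * s₂) * q₃.2 i₀, ?_, ?_⟩
      · have h5 : o + (s₁ * s₂ * q₃.2 i₀) • b i = p := by
          have h6 := sum_co b o p
          rw [Finset.sum_eq_single i (fun k _ hk => by rw [z' k hk, zero_smul])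
            (fun h => absurd (Finset.mem_univ i) h), e'] at h6
          rw [h6, add_sub_cancel]
        rw [h5]
        exact hp
      · rw [hc] at hsc₂
        have h2 : s₁ * s₁ = 1 := by rcases hs₁ with rfl | rfl <;> norm_num
        calc t * |c i| * (s₁ * s₂ * q₃.2 i₀) = t * |c i| * s₁ * (s₂ * q₃.2 i₀) := by ring
          _ = (t * (1 / t)) * ((s₁ * s₁) * c i) := by rw [hsc₂, ← hsc₁]; ring
          _ = c i := by rw [mul_one_div_cancel ht.ne', h2, one_mul, one_mul]
    choose s hsK hsc using hv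
    have h3 : ∑ i : Option (Fin 4), (Option.elim i (1 - ∑ k, t * |c k|) fun k => t * |c k|) •
        (Option.elim i o fun k => o + s k • b k) ∈ K := by
      refine hK.convex.sum_mem ?_ ?_ ?_
      · rintro (_ | i) -
        · simp only [Option.elim_none]
          rw [← Finset.mul_sum, sub_nonneg]
          rwa [le_div_iff₀ ht, mul_comm] at hc1
        · exact mul_nonneg ht.le (abs_nonneg _)
      · rw [Fintype.sum_option]
        simp
      · rintro (_ | i) -
        · exact hoK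
        · exact hsK i
    rw [Fintype.sum_option] at h3
    simp only [Option.elim_none, Option.elim_some, smul_add, smul_smul, hsc] at h3
    rw [Finset.sum_add_distrib, ← Finset.sum_smul, ← add_assoc, ← add_smul, sub_add_cancel, one_smul] at h3
    exact h3

end Pool.Agent.Lib.MP_5e7226_co.DX
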