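import Pool.Agent.Lib.MP_5e7226_co.DX.Gm0
import Pool.Agent.Lib.MP_5e7226_co.HT.Polar

set_option autoImplicit false

/-! Row DX-G1: `Dual (GK b o K)`. -/

namespace Pool.Agent.Lib.MP_5e7226_co.DX

open Finset

variable {d : ℕ}

/-- The signed permutation `(σ, ε)` of the basis, extended to the space (centre `o`). -/
noncomputable def Gm1_A (b : Module.Basis (Fin d) ℝ (EuclideanSpace ℝ (Fin d))) (o : EuclideanSpace ℝ (Fin d))
    (σ : Equiv.Perm (Fin d)) (ε : Fin d → ℝ) (p : EuclideanSpace ℝ (Fin d)) : EuclideanSpace ℝ (Fin d) :=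
  o + ∑ i, (ε i * co b o p i) • b (σ i)

theorem Gm1_A_eq (b : Module.Basis (Fin d) ℝ (EuclideanSpace ℝ (Fin d))) (o : EuclideanSpace ℝ (Fin d))
    (σ : Equiv.Perm (Fin d)) (ε : Fin d → ℝ) (p : EuclideanSpace ℝ (Fin d)) :
    Gm1_A b o σ ε p = o + ∑ j, (ε (σ⁻¹ j) * co b o p (σ⁻¹ j)) • b j := by
  unfold Gm1_A
  rw [← Equiv.sum_comp σ (fun j => (ε (σ⁻¹ j) * co b o p (σ⁻¹ j)) • b j)]
  simp

theorem Gm1_co_A (b : Module.Basis (Fin d) ℝ (EuclideanSpace ℝ (Fin d))) (o : EuclideanSpace ℝ (Fin d))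
    (σ : Equiv.Perm (Fin d)) (ε : Fin d → ℝ) (p : EuclideanSpace ℝ (Fin d)) (j : Fin d) :
    co b o (Gm1_A b o σ ε p) j = ε (σ⁻¹ j) * co b o p (σ⁻¹ j) := by
  rw [Gm1_A_eq, co_sum]

theorem Gm1_ext (b : Module.Basis (Fin d) ℝ (EuclideanSpace ℝ (Fin d))) (o : EuclideanSpace ℝ (Fin d))
    {p q : EuclideanSpace ℝ (Fin d)} (h : ∀ i, co b o p i = co b o q i) : p = q := by
  have h1 := sum_co b o p
  have h2 := sum_co b o q
  have h3 : ∑ i, co b o p i • b i = ∑ i, co b o q i • b i := sum_congr rfl fun i _ => by rw [h i]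
  have h4 : p - o = q - o := by rw [← h1, ← h2, h3]
  exact sub_left_inj.1 h4

theorem Gm1_cont (b : Module.Basis (Fin d) ℝ (EuclideanSpace ℝ (Fin d))) (o : EuclideanSpace ℝ (Fin d))
    (i : Fin d) : Continuous (fun p => co b o p i) := by
  unfold co
  have h1 : Continuous (fun v : EuclideanSpace ℝ (Fin d) => b.repr v i) :=
    (b.coord i).continuous_of_finiteDimensional
  exact h1.comp (continuous_id.sub continuous_const)

theorem Gm1_A_cont (b : Module.Basis (Fin d) ℝ (EuclideanSpace ℝ (Fin d))) (o : EuclideanSpace ℝ (Fin d))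
    (σ : Equiv.Perm (Fin d)) (ε : Fin d → ℝ) : Continuous (Gm1_A b o σ ε) := by
  unfold Gm1_A
  exact continuous_const.add (continuous_finsetSum _ fun i _ =>
    (continuous_const.mul (Gm1_cont b o i)).smul continuous_const)

theorem Gm1_ai (σ : Equiv.Perm (Fin d)) (j : Fin d) : σ (σ⁻¹ j) = j := by simp

theorem Gm1_ia (σ : Equiv.Perm (Fin d)) (j : Fin d) : σ⁻¹ (σ j) = j := by simp

theorem Gm1_sq {ε : Fin d → ℝ} (hε : ∀ i, ε i = 1 ∨ ε i = -1) (i : Fin d) : ε i * ε i = 1 := by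
  rcases hε i with h | h <;> rw [h] <;> norm_num

theorem Gm1_A_A (b : Module.Basis (Fin d) ℝ (EuclideanSpace ℝ (Fin d))) (o : EuclideanSpace ℝ (Fin d))
    (σ : Equiv.Perm (Fin d)) {ε : Fin d → ℝ} (hε : ∀ i, ε i = 1 ∨ ε i = -1) (p : EuclideanSpace ℝ (Fin d)) :
    Gm1_A b o σ ε (Gm1_A b o σ⁻¹ (fun j => ε (σ⁻¹ j)) p) = p := by
  refine Gm1_ext b o fun j => ?_
  rw [Gm1_co_A, Gm1_co_A]
  simp only [inv_inv, Gm1_ai]
  rw [← mul_assoc, Gm1_sq hε, one_mul]

theorem Gm1_A_A' (b : Module.Basis (Fin d) ℝ (EuclideanSpace ℝ (Fin d))) (o : EuclideanSpace ℝ (Fin d))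
    (σ : Equiv.Perm (Fin d)) {ε : Fin d → ℝ} (hε : ∀ i, ε i = 1 ∨ ε i = -1) (p : EuclideanSpace ℝ (Fin d)) :
    Gm1_A b o σ⁻¹ (fun j => ε (σ⁻¹ j)) (Gm1_A b o σ ε p) = p := by
  refine Gm1_ext b o fun j => ?_
  rw [Gm1_co_A, Gm1_co_A]
  simp only [inv_inv, Gm1_ia]
  rw [← mul_assoc, Gm1_sq hε, one_mul]

theorem Gm1_A_int {b : Module.Basis (Fin d) ℝ (EuclideanSpace ℝ (Fin d))}
    {o : EuclideanSpace ℝ (Fin d)} {K : Set (EuclideanSpace ℝ (Fin d))} (hK : SymBody b o K)
    (σ : Equiv.Perm (Fin d)) {ε : Fin d → ℝ} (hε : ∀ i, ε i = 1 ∨ ε i = -1) (hε1 : ∏ i, ε i = 1)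
    {p : EuclideanSpace ℝ (Fin d)} (hp : p ∈ interior K) : Gm1_A b o σ ε p ∈ interior K := by
  have h1 : IsOpen (Gm1_A b o σ⁻¹ (fun j => ε (σ⁻¹ j)) ⁻¹' interior K) :=
    isOpen_interior.preimage (Gm1_A_cont b o _ _)
  have h2 : Gm1_A b o σ⁻¹ (fun j => ε (σ⁻¹ j)) ⁻¹' interior K ⊆ K := by
    intro y hy
    have h3 := hK.sym σ ε hε hε1 _ (interior_subset hy)
    have h4 := Gm1_A_A b o σ hε y
    have h5 : Gm1_A b o σ ε (Gm1_A b o σ⁻¹ (fun j => ε (σ⁻¹ j)) y) ∈ K := h3
    rwa [h4] at h5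
  refine interior_maximal h2 h1 ?_
  show Gm1_A b o σ⁻¹ (fun j => ε (σ⁻¹ j)) (Gm1_A b o σ ε p) ∈ interior K
  rwa [Gm1_A_A' b o σ hε]

theorem Gm1_co_mid (b : Module.Basis (Fin d) ℝ (EuclideanSpace ℝ (Fin d))) (o p q : EuclideanSpace ℝ (Fin d))
    (i : Fin d) : co b o ((1 / 2 : ℝ) • p + (1 / 2 : ℝ) • q) i = (co b o p i + co b o q i) / 2 := by
  unfold co
  have h1 : (1 / 2 : ℝ) • p + (1 / 2 : ℝ) • q - o = (1 / 2 : ℝ) • (p - o) + (1 / 2 : ℝ) • (q - o) := by
    module
  rw [h1, map_add, map_smul, map_smul]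
  simp only [Finsupp.coe_add, Finsupp.coe_smul, Pi.add_apply, Pi.smul_apply, smul_eq_mul]
  ring

/-- PROOF. As `SX/Gm1.lean` `cen_mem_interior`: for `p ∈ interior K` and each `(σ, ε)` the image is in `interior K` (homeomorphism which maps `K` into `K`, with inverse of the same kind). Average over
`σ = 1` and the sign vectors with exactly the signs of `i` and `i + 1` (cyclic) changed, and the identity...: simplest: for every `i`, let `j ≠ i`; the point with coordinate `i`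
and `j` negated. Induct: the set of the coordinates which are zero can be enlarged: from `p` with `c_i ≠ 0`: the mean of `p` and its image under the sign change of `{i, j}` has `c_i = c_j = 0`, other
coordinates unchanged, and it is in `interior K` (convex). So `2 ≤ d` is enough. -/
theorem cen_mem_interior (hd : 2 ≤ d) {b : Module.Basis (Fin d) ℝ (EuclideanSpace ℝ (Fin d))}
    {o : EuclideanSpace ℝ (Fin d)} {K : Set (EuclideanSpace ℝ (Fin d))} (hK : SymBody b o K) : o ∈ interior K := by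
  have key : ∀ n : ℕ, ∀ p ∈ interior K, (univ.filter fun i => co b o p i ≠ 0).card = n → o ∈ interior K := by
    intro n
    induction n using Nat.strong_induction_on with
    | _ n ih =>
      intro p hp hn
      by_cases h0 : ∀ i, co b o p i = 0
      · have h1 := sum_co b o p
        simp only [h0, zero_smul, sum_const_zero] at h1
        have h2 : p = o := sub_eq_zero.1 h1.symm
        rwa [h2] at hp
      · push Not at h0
        obtain ⟨i, hi⟩ := h0
        obtain ⟨j, hj⟩ : ∃ j, j ≠ i := by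
          have : Nontrivial (Fin d) := Fin.nontrivial_iff_two_le.2 hd
          exact exists_ne i
        set ε : Fin d → ℝ := fun k => (if k = i then (-1 : ℝ) else 1) * (if k = j then (-1 : ℝ) else 1) with hεdef
        have hε : ∀ k, ε k = 1 ∨ ε k = -1 := by
          intro k
          simp only [hεdef]
          split_ifs <;> norm_num
        have hε1 : ∏ k, ε k = 1 := by
          simp only [hεdef]
          rw [prod_mul_distrib, prod_ite_eq' univ i, prod_ite_eq' univ j]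
          simp
        have hA : Gm1_A b o 1 ε p ∈ interior K := Gm1_A_int hK 1 hε hε1 hp
        have hq : (1 / 2 : ℝ) • p + (1 / 2 : ℝ) • Gm1_A b o 1 ε p ∈ interior K :=
          hK.convex.interior hp hA (by norm_num) (by norm_num) (by norm_num)
        have hc : ∀ k, co b o ((1 / 2 : ℝ) • p + (1 / 2 : ℝ) • Gm1_A b o 1 ε p) k =
            (co b o p k + ε k * co b o p k) / 2 := by
          intro k
          rw [Gm1_co_mid, Gm1_co_A]
          simp
        refine ih _ ?_ _ hq rfl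
        rw [← hn]
        refine card_lt_card ?_
        refine (ssubset_iff_of_subset ?_).2 ⟨i, ?_, ?_⟩
        · intro k hk
          rw [mem_filter] at hk ⊢
          refine ⟨hk.1, fun h => hk.2 ?_⟩
          rw [hc, h]
          simp
        · rw [mem_filter]
          exact ⟨mem_univ i, hi⟩
        · rw [mem_filter]
          rintro ⟨_, h⟩
          apply h
          rw [hc]
          have : ε i = -1 := by
            show (if i = i then (-1 : ℝ) else 1) * (if i = j then (-1 : ℝ) else 1) = -1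
            rw [if_pos rfl, if_neg (Ne.symm hj)]
            norm_num
          rw [this]
          ring
  obtain ⟨p, hp⟩ := hK.int
  exact key _ p hp rfl

/-- PROOF. As `SX/Gm1.lean` `dual_GK`. `le`: `∑ i, fu b f i * (ε i * co b o p (σ i)) = f p' - f o` with `p' = o + ∑ i, (ε i * co b o p (σ i)) • b i = o + ∑ i, (ε (σ⁻¹ i) * co b o p i) • b (σ⁻¹ i) ∈ K`. -/
theorem dual_GK (hd : 2 ≤ d) {b : Module.Basis (Fin d) ℝ (EuclideanSpace ℝ (Fin d))}
    {o : EuclideanSpace ℝ (Fin d)} {K : Set (EuclideanSpace ℝ (Fin d))} (hK : SymBody b o K) :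
    Dual (GK b o K) := by
  have hcen := cen_mem_interior hd hK
  refine ⟨?_, ?_, ?_⟩
  · set K' : Set (EuclideanSpace ℝ (Fin d)) := (fun x => x - o) '' K with hK'
    have h0 : (0 : EuclideanSpace ℝ (Fin d)) ∈ interior K' := by
      have h1 : (Homeomorph.subRight o) '' interior K = interior ((Homeomorph.subRight o) '' K) :=
        (Homeomorph.subRight o).image_interior K
      have h2 : (0 : EuclideanSpace ℝ (Fin d)) ∈ (Homeomorph.subRight o) '' interior K :=
        ⟨o, hcen, by simp⟩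
      rw [h1] at h2
      exact h2
    have hP : IsCompact (polarBody K') := by
      have : ProperSpace (EuclideanSpace ℝ (Fin d) →L[ℝ] ℝ) := FiniteDimensional.proper ℝ _
      exact Metric.isCompact_of_isClosed_isBounded (polarBody_closed K') (polarBody_bounded h0)
    have hmem : ∀ f : EuclideanSpace ℝ (Fin d) →L[ℝ] ℝ, f ∈ polarBody K' ↔ ∀ y ∈ K, f y - f o ≤ 1 := by
      intro f
      constructor
      · intro h y hy
        have := h (y - o) ⟨y, hy, rfl⟩
        rwa [map_sub] at this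
      · rintro h _ ⟨y, hy, rfl⟩
        rw [map_sub]
        exact h y hy
    have hcl : IsClosed {q : EuclideanSpace ℝ (Fin d) × (EuclideanSpace ℝ (Fin d) →L[ℝ] ℝ) |
        q.2 q.1 - q.2 o = 1} := by
      refine isClosed_eq ?_ continuous_const
      exact (continuous_snd.clm_apply continuous_fst).sub (continuous_snd.clm_apply continuous_const)
    have hc : IsCompact ((K ×ˢ polarBody K') ∩ {q : EuclideanSpace ℝ (Fin d) × (EuclideanSpace ℝ (Fin d) →L[ℝ] ℝ) |
        q.2 q.1 - q.2 o = 1}) := (hK.compact.prod hP).inter_right hcl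
    have himg : GK b o K = (fun q : EuclideanSpace ℝ (Fin d) × (EuclideanSpace ℝ (Fin d) →L[ℝ] ℝ) =>
        (co b o q.1, fu b q.2)) '' ((K ×ˢ polarBody K') ∩ {q | q.2 q.1 - q.2 o = 1}) := by
      ext q
      constructor
      · rintro ⟨p, hp, f, hf, h1, rfl⟩
        exact ⟨(p, f), ⟨⟨hp, (hmem f).2 hf⟩, h1⟩, rfl⟩
      · rintro ⟨⟨p, f⟩, ⟨⟨hp, hf⟩, h1⟩, rfl⟩
        exact ⟨p, hp, f, (hmem f).1 hf, h1, rfl⟩
    rw [himg]
    refine hc.image ?_
    refine Continuous.prodMk ?_ ?_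
    · refine continuous_pi fun i => ?_
      exact (Gm1_cont b o i).comp continuous_fst
    · refine continuous_pi fun i => ?_
      exact continuous_snd.clm_apply continuous_const
  · rintro _ ⟨p, _, f, _, h1, rfl⟩
    rw [← h1]
    exact (pairing b o f p).symm
  · rintro _ ⟨p, hp, f, hf, h1, rfl⟩ _ ⟨p', hp', f', hf', h1', rfl⟩ σ ε hε hε1
    have hε' : ∀ i, ε (σ⁻¹ i) = 1 ∨ ε (σ⁻¹ i) = -1 := fun i => hε _
    have hε1' : ∏ i, ε (σ⁻¹ i) = 1 := by
      rw [Equiv.prod_comp σ⁻¹ ε]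
      exact hε1
    have h2 : Gm1_A b o σ⁻¹ (fun i => ε (σ⁻¹ i)) p' ∈ K := hK.sym σ⁻¹ _ hε' hε1' p' hp'
    have h3 := hf _ h2
    rw [pairing b o] at h3
    have h4 : ∀ i, co b o (Gm1_A b o σ⁻¹ (fun i => ε (σ⁻¹ i)) p') i = ε i * co b o p' (σ i) := by
      intro i
      rw [Gm1_co_A]
      simp
    simp only [h4] at h3
    exact h3

/-- PROOF. As `SX/Gm1.lean` `dual_swp`: `∑ i, p.1 i * (ε i * q.2 (σ i)) = ∑ i, q.2 i * (ε (σ⁻¹ i) * p.1 (σ⁻¹ i))`. -/
theorem dual_swp {G : Set ((Fin d → ℝ) × (Fin d → ℝ))} (hG : Dual G) : Dual (swp G) := by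
  refine ⟨?_, ?_, ?_⟩
  · have h1 : swp G = Prod.swap '' G := by
      ext q
      constructor
      · intro h
        exact ⟨(q.2, q.1), h, rfl⟩
      · rintro ⟨q', h, rfl⟩
        exact h
    rw [h1]
    exact hG.compact.image continuous_swap
  · intro p hp
    rw [← hG.one _ hp]
    exact sum_congr rfl fun i _ => mul_comm _ _
  · intro p hp q hq σ ε hε hε1
    have hε1' : ∏ i, ε (σ⁻¹ i) = 1 := by
      rw [Equiv.prod_comp σ⁻¹ ε]
      exact hε1
    have h1 := hG.le _ hq _ hp σ⁻¹ (fun i => ε (σ⁻¹ i)) (fun i => hε _) hε1'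
    refine le_trans (le_of_eq ?_) h1
    rw [← Equiv.sum_comp σ (fun i => ((q.2, q.1) : (Fin d → ℝ) × (Fin d → ℝ)).2 i *
      (ε (σ⁻¹ i) * ((p.2, p.1) : (Fin d → ℝ) × (Fin d → ℝ)).1 (σ⁻¹ i)))]
    refine sum_congr rfl fun i _ => ?_
    simp only [Gm1_ia]
    ring

end Pool.Agent.Lib.MP_5e7226_co.DX
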