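import Pool.Agent.Lib.MP_5e7226_co.DX.D4A
import Pool.Agent.Lib.MP_5e7226_co.DX.Gm1
import Pool.Agent.Lib.MP_5e7226_co.HX.Geo

set_option autoImplicit false

/-! Row D4-G: geometry in `E^4`. -/

namespace Pool.Agent.Lib.MP_5e7226_co.DX

open Finset
open Pool.Agent.Lib.MP_5e7226_co.HX (Body compact_GK one_GK le_GK)

/-- the involution -/
private theorem D4G1_rr {r : Fin 4 → ℝ} (h : ∑ k, r k * r k = 2) (c : Fin 4 → ℝ) : rfl2 r (rfl2 r c) = c := by
  funext k
  unfold rfl2
  have h1 : ∑ i, (c i - (∑ j, c j * r j) * r i) * r i = -∑ j, c j * r j := by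
    have h2 : ∑ i, (c i - (∑ j, c j * r j) * r i) * r i = ∑ i, c i * r i - (∑ j, c j * r j) * ∑ i, r i * r i := by
      rw [mul_sum, ← sum_sub_distrib]
      exact sum_congr rfl fun i _ => by ring
    rw [h2, h]
    ring
  rw [h1]
  ring

/-- the reflection is symmetric -/
private theorem D4G1_sym (r x y : Fin 4 → ℝ) : ∑ i, rfl2 r x i * y i = ∑ i, x i * rfl2 r y i := by
  unfold rfl2
  have h1 : ∑ i, (x i - (∑ j, x j * r j) * r i) * y i = ∑ i, x i * y i - (∑ j, x j * r j) * ∑ i, y i * r i := by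
    rw [mul_sum, ← sum_sub_distrib]
    exact sum_congr rfl fun i _ => by ring
  have h2 : ∑ i, x i * (y i - (∑ j, y j * r j) * r i) = ∑ i, x i * y i - (∑ j, y j * r j) * ∑ i, x i * r i := by
    rw [mul_sum, ← sum_sub_distrib]
    exact sum_congr rfl fun i _ => by ring
  rw [h1, h2]
  ring

private theorem D4G1_nrm {r : Fin 4 → ℝ} (hr : IsRoot r) : ∑ k, r k * r k = 2 := by
  obtain ⟨z, hz, hz2⟩ := hr
  have h1 : ∑ k, r k * r k = ((∑ k, z k ^ 2 : ℤ) : ℝ) := by
    push_cast
    exact sum_congr rfl fun k _ => by rw [hz k]; ring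
  rw [h1, hz2]
  norm_num

/-- the reflection as a permutation with signs -/
private theorem D4G1_perm {r : Fin 4 → ℝ} (hr : IsRoot r) : ∃ (σ : Equiv.Perm (Fin 4)) (ε : Fin 4 → ℝ),
    (∀ i, ε i = 1 ∨ ε i = -1) ∧ ∏ i, ε i = 1 ∧ (∀ k, σ (σ k) = k) ∧ (∀ k, ε (σ k) = ε k) ∧
      ∀ c k, rfl2 r c k = ε k * c (σ k) := by
  classical
  obtain ⟨z, hz, hz2⟩ := hr
  have hle : ∀ k, z k ^ 2 ≤ 2 := by
    intro k
    rw [← hz2]
    exact single_le_sum (f := fun k => z k ^ 2) (fun i _ => sq_nonneg _) (mem_univ k)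
  have hcase : ∀ k, z k = 0 ∨ z k = 1 ∨ z k = -1 := by
    intro k
    have h1 := hle k
    have h2 : z k ≤ 1 := by nlinarith
    have h3 : -1 ≤ z k := by nlinarith
    omega
  have hsq : ∀ k, z k ^ 2 = if z k ≠ 0 then 1 else 0 := by
    intro k
    rcases hcase k with h | h | h <;> rw [h] <;> norm_num
  have hcard : (univ.filter (fun k => z k ≠ 0)).card = 2 := by
    have h1 : ((univ.filter (fun k => z k ≠ 0)).card : ℤ) = 2 := by
      rw [Finset.card_filter, ← hz2]
      push_cast
      exact sum_congr rfl fun k _ => (hsq k).symm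
    exact_mod_cast h1
  obtain ⟨i, j, hij, hS⟩ := Finset.card_eq_two.1 hcard
  have hi : z i ≠ 0 := by
    have : i ∈ univ.filter (fun k => z k ≠ 0) := by rw [hS]; simp
    simpa using this
  have hj : z j ≠ 0 := by
    have : j ∈ univ.filter (fun k => z k ≠ 0) := by rw [hS]; simp
    simpa using this
  have hk : ∀ k, k ≠ i → k ≠ j → r k = 0 := by
    intro k h1 h2
    have h3 : z k = 0 := by
      by_contra h4
      have h5 : k ∈ univ.filter (fun k => z k ≠ 0) := by simp [h4]
      rw [hS, Finset.mem_insert, Finset.mem_singleton] at h5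
      rcases h5 with h5 | h5
      · exact h1 h5
      · exact h2 h5
    rw [hz k, h3]
    norm_num
  have hri : r i = 1 ∨ r i = -1 := by
    rcases hcase i with h | h | h
    · exact absurd h hi
    · left; rw [hz i, h]; norm_num
    · right; rw [hz i, h]; norm_num
  have hrj : r j = 1 ∨ r j = -1 := by
    rcases hcase j with h | h | h
    · exact absurd h hj
    · left; rw [hz j, h]; norm_num
    · right; rw [hz j, h]; norm_num
  have hi2 : r i * r i = 1 := by rcases hri with h | h <;> rw [h] <;> norm_num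
  have hj2 : r j * r j = 1 := by rcases hrj with h | h <;> rw [h] <;> norm_num
  have hsum : ∀ c : Fin 4 → ℝ, ∑ l, c l * r l = c i * r i + c j * r j := by
    intro c
    have h1 : ∑ l, c l * r l = ∑ l ∈ ({i, j} : Finset (Fin 4)), c l * r l := by
      symm
      refine Finset.sum_subset (Finset.subset_univ _) fun l _ hl => ?_
      rw [Finset.mem_insert, Finset.mem_singleton, not_or] at hl
      rw [hk l hl.1 hl.2, mul_zero]
    rw [h1, Finset.sum_pair hij]
  obtain ⟨s, hs⟩ : ∃ s : ℝ, s = -(r i * r j) := ⟨_, rfl⟩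
  have hs1 : s = 1 ∨ s = -1 := by
    rw [hs]
    rcases hri with h | h <;> rcases hrj with h' | h' <;> rw [h, h'] <;> norm_num
  have hs2 : s * s = 1 := by rcases hs1 with h | h <;> rw [h] <;> norm_num
  refine ⟨Equiv.swap i j, fun k => if k = i ∨ k = j then s else 1, ?_, ?_, ?_, ?_, ?_⟩
  · intro k
    by_cases h : k = i ∨ k = j
    · simp only [if_pos h]
      exact hs1
    · simp only [if_neg h]
      exact Or.inl trivial
  · have h1 : ∏ k, (if k = i ∨ k = j then s else 1) = ∏ k ∈ ({i, j} : Finset (Fin 4)), (if k = i ∨ k = j then s else 1) := by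
      symm
      refine Finset.prod_subset (Finset.subset_univ _) fun l _ hl => ?_
      rw [Finset.mem_insert, Finset.mem_singleton] at hl
      rw [if_neg hl]
    rw [h1, Finset.prod_pair hij, if_pos (Or.inl rfl), if_pos (Or.inr rfl), hs2]
  · intro k
    exact Equiv.swap_apply_self i j k
  · intro k
    by_cases h1 : k = i
    · subst h1
      rw [Equiv.swap_apply_left]
      simp
    · by_cases h2 : k = j
      · subst h2
        rw [Equiv.swap_apply_right]
        simp
      · rw [Equiv.swap_apply_of_ne_of_ne h1 h2]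
  · intro c k
    change rfl2 r c k = (if k = i ∨ k = j then s else 1) * c (Equiv.swap i j k)
    unfold rfl2
    rw [hsum c]
    by_cases h1 : k = i
    · subst h1
      rw [Equiv.swap_apply_left, if_pos (Or.inl rfl), hs]
      linear_combination (-(c k)) * hi2
    · by_cases h2 : k = j
      · subst h2
        rw [Equiv.swap_apply_right, if_pos (Or.inr rfl), hs]
        linear_combination (-(c k)) * hj2
      · rw [Equiv.swap_apply_of_ne_of_ne h1 h2, if_neg (by tauto), hk k h1 h2]
        ring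

/-- a root reflection maps the body into itself -/
private theorem D4G1_map {b : Module.Basis (Fin 4) ℝ (EuclideanSpace ℝ (Fin 4))}
    {o : EuclideanSpace ℝ (Fin 4)} {K : Set (EuclideanSpace ℝ (Fin 4))} (hK : SymBody b o K) {r : Fin 4 → ℝ} (hr : IsRoot r)
    {p : EuclideanSpace ℝ (Fin 4)} (hp : p ∈ K) : o + ∑ k, rfl2 r (co b o p) k • b k ∈ K := by
  obtain ⟨σ, ε, h1, h2, h3, h4, h5⟩ := D4G1_perm hr
  have h6 := hK.sym σ ε h1 h2 p hp
  have h7 : ∑ k, rfl2 r (co b o p) k • b k = ∑ i, (ε i * co b o p i) • b (σ i) := by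
    rw [← Equiv.sum_comp σ]
    refine sum_congr rfl fun k _ => ?_
    rw [h5, h4, h3]
  rw [h7]
  exact h6

/-- D4-G1. PROOF. `compact`, `one`, `le`: `HX/Geo.lean` (`o ∈ interior K` by `cen_mem_interior`). `inv`: a root is `± (e_i - s e_j)` with `i ≠ j`, `s = ± 1`, so `rfl2 r c` is the map `(σ, ε)` with `σ = swap i j`,
`ε = s` on `{i, j}`; point: `SymBody.sym`; functional: `f' = ∑ k, (rfl2 r (fu b f)) k * b.coord k`, `f' (y - o) = f (y' - o)` with `y' = o + ∑ rfl2 r (co b o y) k • b k ∈ K`.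
`ray`: the last point `o + t ∑ v i • b i` of the ray in `K` (compact) is on the frontier, a supporting functional there, normalised (`o ∈ interior K`). -/
theorem dual4_GK {b : Module.Basis (Fin 4) ℝ (EuclideanSpace ℝ (Fin 4))}
    {o : EuclideanSpace ℝ (Fin 4)} {K : Set (EuclideanSpace ℝ (Fin 4))} (hK : SymBody b o K) :
    Dual4 (GK b o K) := by
  have ho : o ∈ interior K := cen_mem_interior (by norm_num) hK
  have hB : Body o K := ⟨hK.convex, hK.compact, ho⟩
  refine ⟨compact_GK b hB, one_GK b, ?_, ?_, ?_⟩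
  · intro p hp q hq
    refine le_GK b (A := fun c => c) ?_ p hp q hq
    intro y hy
    rw [sum_co, add_sub_cancel]
    exact hy
  · rintro _ ⟨p, hp, f, hf, h1, rfl⟩ r hr
    have hn := D4G1_nrm hr
    obtain ⟨f', hf'⟩ : ∃ f' : EuclideanSpace ℝ (Fin 4) →L[ℝ] ℝ, fu b f' = rfl2 r (fu b f) :=
      ⟨LinearMap.toContinuousLinearMap (b.constr ℝ (rfl2 r (fu b f))), by
        funext i
        unfold fu
        rw [LinearMap.coe_toContinuousLinearMap', Module.Basis.constr_basis]⟩
    refine ⟨o + ∑ k, rfl2 r (co b o p) k • b k, D4G1_map hK hr hp, f', ?_, ?_, ?_⟩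
    · intro y hy
      rw [pairing b o f' y, hf', D4G1_sym]
      have h2 := hf _ (D4G1_map hK hr hy)
      rw [pairing b o f, co_sum] at h2
      exact h2
    · rw [pairing b o f', co_sum, hf', D4G1_sym, D4G1_rr hn, ← pairing b o f p]
      exact h1
    · rw [co_sum, hf']
  · intro v hv
    obtain ⟨w, hw⟩ : ∃ w : EuclideanSpace ℝ (Fin 4), w = ∑ i, v i • b i := ⟨_, rfl⟩
    have hw0 : w ≠ 0 := by
      intro h
      apply hv
      have h2 : ∀ i, v i = 0 := by
        rw [hw] at h
        exact fun i => (Fintype.linearIndependent_iff.1 b.linearIndependent) v h i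
      exact funext h2
    have hcont : Continuous (fun s : ℝ => o + s • w) := by fun_prop
    have hSc : IsCompact {s : ℝ | 0 ≤ s ∧ o + s • w ∈ K} := by
      refine Metric.isCompact_of_isClosed_isBounded ?_ ?_
      · exact (isClosed_le continuous_const continuous_id).inter (hK.compact.isClosed.preimage hcont)
      · obtain ⟨M, hM⟩ := hK.compact.isBounded.exists_norm_le
        refine (Metric.isBounded_Icc (0 : ℝ) ((M + ‖o‖) / ‖w‖)).subset ?_
        rintro s ⟨hs0, hs⟩
        refine ⟨hs0, ?_⟩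
        rw [le_div_iff₀ (norm_pos_iff.2 hw0)]
        have h2 := hM _ hs
        have h3 : ‖s • w‖ ≤ ‖o + s • w‖ + ‖o‖ := by
          have h4 : s • w = (o + s • w) - o := by abel
          calc ‖s • w‖ = ‖(o + s • w) - o‖ := by rw [← h4]
            _ ≤ ‖o + s • w‖ + ‖o‖ := norm_sub_le _ _
        rw [norm_smul, Real.norm_of_nonneg hs0] at h3
        linarith
    have hmem0 : (fun s : ℝ => o + s • w) 0 ∈ interior K := by simpa using ho
    have hev : ∀ᶠ s in nhds (0 : ℝ), o + s • w ∈ interior K :=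
      hcont.continuousAt.preimage_mem_nhds (isOpen_interior.mem_nhds hmem0)
    have hev3 : ∀ᶠ s in nhdsWithin (0 : ℝ) (Set.Ioi 0), 0 < s := self_mem_nhdsWithin
    obtain ⟨s, hs1, hs0⟩ := ((hev.filter_mono nhdsWithin_le_nhds).and hev3).exists
    have hsS : s ∈ {s : ℝ | 0 ≤ s ∧ o + s • w ∈ K} := ⟨hs0.le, interior_subset hs1⟩
    obtain ⟨t, htS, htmax⟩ := hSc.exists_isMaxOn ⟨s, hsS⟩ continuousOn_id
    have ht0 : 0 < t := lt_of_lt_of_le hs0 (htmax hsS)
    have htni : o + t • w ∉ interior K := by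
      intro h
      have hev' : ∀ᶠ u in nhds t, o + u • w ∈ interior K :=
        hcont.continuousAt.preimage_mem_nhds (isOpen_interior.mem_nhds h)
      have hev4 : ∀ᶠ u in nhdsWithin t (Set.Ioi t), t < u := self_mem_nhdsWithin
      obtain ⟨u, hu1, hu2⟩ := ((hev'.filter_mono nhdsWithin_le_nhds).and hev4).exists
      have h3 : u ≤ t := htmax ⟨by linarith, interior_subset hu1⟩
      linarith
    obtain ⟨f, hf⟩ := geometric_hahn_banach_open_point hK.convex.interior isOpen_interior htni
    have h1 : 0 < f (o + t • w) - f o := sub_pos.2 (hf _ ho)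
    have hcl : closure (interior K) = K := by
      rw [hK.convex.closure_interior_eq_closure_of_nonempty_interior hK.int]
      exact hK.compact.isClosed.closure_eq
    have h2 : ∀ y ∈ K, f y ≤ f (o + t • w) := by
      intro y hy
      rw [← hcl] at hy
      have h3 : closure (interior K) ⊆ {y | f y ≤ f (o + t • w)} :=
        closure_minimal (fun z hz => (hf z hz).le) (isClosed_le f.continuous continuous_const)
      exact h3 hy
    obtain ⟨q, hq⟩ : ∃ q, q = o + t • w := ⟨_, rfl⟩
    rw [← hq] at h1 h2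
    refine ⟨(co b o q, fu b ((f q - f o)⁻¹ • f)), ⟨q, ?_, (f q - f o)⁻¹ • f, ?_, ?_, rfl⟩, t, ht0, ?_⟩
    · rw [hq]
      exact htS.2
    · intro y hy
      have h3 := h2 y hy
      change (f q - f o)⁻¹ * f y - (f q - f o)⁻¹ * f o ≤ 1
      rw [← mul_sub, inv_mul_le_iff₀ h1]
      linarith
    · change (f q - f o)⁻¹ * f q - (f q - f o)⁻¹ * f o = 1
      rw [← mul_sub]
      exact inv_mul_cancel₀ h1.ne'
    · change co b o q = t • v
      have h4 : q = o + ∑ i, (t • v) i • b i := by
        rw [hq, hw, smul_sum]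
        congr 1
        refine sum_congr rfl fun i _ => ?_
        rw [smul_smul]
        rfl
      rw [h4, co_sum]

/-- D4-G2. PROOF. As D4-G1; `ray` for the swapped set: the functional `f` with `f (b i) = v i`, its maximum `f o + m` over `K` at `p`, `m > 0`; the pair of `f / m` and `p`. -/
theorem dual4_swp {b : Module.Basis (Fin 4) ℝ (EuclideanSpace ℝ (Fin 4))}
    {o : EuclideanSpace ℝ (Fin 4)} {K : Set (EuclideanSpace ℝ (Fin 4))} (hK : SymBody b o K) :
    Dual4 (swp (GK b o K)) := by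
  have hD := dual4_GK hK
  have ho : o ∈ interior K := cen_mem_interior (by norm_num) hK
  refine ⟨?_, ?_, ?_, ?_, ?_⟩
  · have h1 : swp (GK b o K) = Prod.swap '' GK b o K := by
      ext q
      constructor
      · intro h
        exact ⟨(q.2, q.1), h, rfl⟩
      · rintro ⟨q', h, rfl⟩
        exact h
    rw [h1]
    exact hD.compact.image continuous_swap
  · intro p hp
    rw [← hD.one _ hp]
    exact sum_congr rfl fun i _ => mul_comm _ _
  · intro p hp q hq
    refine le_trans (le_of_eq ?_) (hD.le _ hq _ hp)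
    exact sum_congr rfl fun i _ => mul_comm _ _
  · intro p hp r hr
    exact hD.inv _ hp r hr
  · intro v hv
    obtain ⟨f, hf⟩ : ∃ f : EuclideanSpace ℝ (Fin 4) →L[ℝ] ℝ, ∀ i, f (b i) = v i :=
      ⟨LinearMap.toContinuousLinearMap (b.constr ℝ v), fun i => by
        rw [LinearMap.coe_toContinuousLinearMap', Module.Basis.constr_basis]⟩
    have hfe : f (∑ i, v i • b i) = ∑ i, v i * v i := by
      rw [map_sum]
      exact sum_congr rfl fun i _ => by rw [map_smul, hf, smul_eq_mul]
    have hpos : 0 < ∑ i, v i * v i := by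
      obtain ⟨j, hj⟩ : ∃ j, v j ≠ 0 := by
        by_contra hcon
        push Not at hcon
        exact hv (funext hcon)
      exact sum_pos' (fun i _ => mul_self_nonneg _) ⟨j, mem_univ j, mul_self_pos.2 hj⟩
    have hcont : Continuous (fun s : ℝ => o + s • ∑ i, v i • b i) := by fun_prop
    have hmem : (fun s : ℝ => o + s • ∑ i, v i • b i) 0 ∈ interior K := by simpa using ho
    have hev : ∀ᶠ s in nhds (0 : ℝ), o + s • ∑ i, v i • b i ∈ interior K :=
      hcont.continuousAt.preimage_mem_nhds (isOpen_interior.mem_nhds hmem)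
    have hev3 : ∀ᶠ s in nhdsWithin (0 : ℝ) (Set.Ioi 0), 0 < s := self_mem_nhdsWithin
    obtain ⟨s, hs1, hs0⟩ := ((hev.filter_mono nhdsWithin_le_nhds).and hev3).exists
    obtain ⟨p, hpK, hpmax⟩ := hK.compact.exists_isMaxOn ⟨o, interior_subset ho⟩ f.continuous.continuousOn
    have hmax : ∀ y ∈ K, f y ≤ f p := fun y hy => hpmax hy
    have h1 : 0 < f p - f o := by
      have h2 := hmax _ (interior_subset hs1)
      rw [map_add, map_smul, hfe, smul_eq_mul] at h2
      have h3 : 0 < s * ∑ i, v i * v i := mul_pos hs0 hpos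
      linarith
    refine ⟨(fu b ((f p - f o)⁻¹ • f), co b o p), ?_, (f p - f o)⁻¹, inv_pos.2 h1, ?_⟩
    · refine ⟨p, hpK, (f p - f o)⁻¹ • f, ?_, ?_, rfl⟩
      · intro y hy
        have h3 := hmax y hy
        change (f p - f o)⁻¹ * f y - (f p - f o)⁻¹ * f o ≤ 1
        rw [← mul_sub, inv_mul_le_iff₀ h1]
        linarith
      · change (f p - f o)⁻¹ * f p - (f p - f o)⁻¹ * f o = 1
        rw [← mul_sub]
        exact inv_mul_cancel₀ h1.ne'
    · funext i
      change (f p - f o)⁻¹ * f (b i) = (f p - f o)⁻¹ * v i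
      rw [hf]

private theorem exists_basis_T (T : (Fin 4 → ℝ) →ₗ[ℝ] (Fin 4 → ℝ)) (hinv : ∀ c, T (T c) = c)
    (hsym : ∀ c e : Fin 4 → ℝ, ∑ i, T c i * e i = ∑ i, c i * T e i)
    (b : Module.Basis (Fin 4) ℝ (EuclideanSpace ℝ (Fin 4))) :
    ∃ b' : Module.Basis (Fin 4) ℝ (EuclideanSpace ℝ (Fin 4)),
      (∀ o p, co b' o p = T (co b o p)) ∧ ∀ f, fu b' f = T (fu b f) := by
  classical
  let E : (Fin 4 → ℝ) ≃ₗ[ℝ] (Fin 4 → ℝ) :=
    LinearEquiv.ofInvolutive T (fun c => hinv c)
  have hE : ∀ c, E c = T c := fun c => rfl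
  have hEs : ∀ c, E.symm c = T c := fun c => by
    rw [LinearEquiv.symm_apply_eq, hE, hinv]
  let b' : Module.Basis (Fin 4) ℝ (EuclideanSpace ℝ (Fin 4)) := Module.Basis.ofEquivFun (b.equivFun.trans E)
  refine ⟨b', ?_, ?_⟩
  · intro o p
    have h1 : (fun i => b'.repr (p - o) i) = b'.equivFun (p - o) := by
      funext i; rw [Module.Basis.equivFun_apply]
    have h2 : (fun i => b.repr (p - o) i) = b.equivFun (p - o) := by
      funext i; rw [Module.Basis.equivFun_apply]
    unfold co
    rw [h1, h2, Module.Basis.equivFun_ofEquivFun]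
    rfl
  · intro f
    funext i
    have hb : b' i = ∑ k, T (Pi.single i 1) k • b k := by
      have h1 : b' i = (b.equivFun.trans E).symm (Pi.single i 1) := by
        show (Module.Basis.ofEquivFun (b.equivFun.trans E)) i = _
        rw [Module.Basis.coe_ofEquivFun]
      rw [h1, LinearEquiv.trans_symm, LinearEquiv.trans_apply, hEs, Module.Basis.equivFun_symm_apply]
    unfold fu
    rw [hb, map_sum]
    have h2 : ∀ k, f (T (Pi.single i 1) k • b k) = T (Pi.single i 1) k * f (b k) := fun k => by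
      rw [map_smul, smul_eq_mul]
    rw [sum_congr rfl (fun k _ => h2 k), hsym (Pi.single i 1) (fun k => f (b k)),
      Finset.sum_eq_single i]
    · rw [Pi.single_eq_same, one_mul]
    · intro k _ hk
      rw [Pi.single_eq_of_ne hk, zero_mul]
    · intro h; exact absurd (mem_univ i) h

private theorem GK_img {b b' : Module.Basis (Fin 4) ℝ (EuclideanSpace ℝ (Fin 4))}
    {T : (Fin 4 → ℝ) → (Fin 4 → ℝ)} (hinv : ∀ c, T (T c) = c)
    (h1 : ∀ o p, co b' o p = T (co b o p)) (h2 : ∀ f, fu b' f = T (fu b f))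
    (o : EuclideanSpace ℝ (Fin 4)) (K : Set (EuclideanSpace ℝ (Fin 4))) :
    GK b' o K = img T (GK b o K) := by
  ext q
  constructor
  · rintro ⟨p, hp, f, hf1, hf2, rfl⟩
    refine ⟨p, hp, f, hf1, hf2, ?_⟩
    show (T (co b' o p), T (fu b' f)) = _
    rw [h1, h2, hinv, hinv]
  · rintro ⟨p, hp, f, hf1, hf2, hq⟩
    refine ⟨p, hp, f, hf1, hf2, ?_⟩
    have hq1 : T q.1 = co b o p := congrArg Prod.fst hq
    have hq2 : T q.2 = fu b f := congrArg Prod.snd hq
    apply Prod.ext
    · show q.1 = co b' o p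
      rw [h1, ← hq1, hinv]
    · show q.2 = fu b' f
      rw [h2, ← hq2, hinv]

/-- D4-G3. The basis with the coordinates `Hm (co b o p)`: `Module.Basis.ofEquivFun` of `b.equivFun` followed by the linear equivalence `Hm` (`Hm (Hm c) = c`); `fu b' f = Hm (fu b f)` since `Hm` is symmetric. -/
theorem exists_basis_Hm (b : Module.Basis (Fin 4) ℝ (EuclideanSpace ℝ (Fin 4))) :
    ∃ b' : Module.Basis (Fin 4) ℝ (EuclideanSpace ℝ (Fin 4)), ∀ (o : EuclideanSpace ℝ (Fin 4))
      (K : Set (EuclideanSpace ℝ (Fin 4))), GK b' o K = img Hm (GK b o K) := by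
  let T : (Fin 4 → ℝ) →ₗ[ℝ] (Fin 4 → ℝ) :=
    { toFun := Hm
      map_add' := by
        intro c e; funext k; fin_cases k <;> simp [Hm] <;> ring
      map_smul' := by
        intro a c; funext k; fin_cases k <;> simp [Hm] <;> ring }
  have hT : ∀ c, T c = Hm c := fun c => rfl
  have hinv : ∀ c, Hm (Hm c) = c := by
    intro c; funext k; fin_cases k <;> simp [Hm] <;> ring
  obtain ⟨b', h1, h2⟩ := exists_basis_T T hinv (by
    intro c e
    simp only [hT, Fin.sum_univ_four]
    simp [Hm]
    ring) b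
  exact ⟨b', fun o K => GK_img hinv h1 h2 o K⟩

theorem exists_basis_Nm (b : Module.Basis (Fin 4) ℝ (EuclideanSpace ℝ (Fin 4))) :
    ∃ b' : Module.Basis (Fin 4) ℝ (EuclideanSpace ℝ (Fin 4)), ∀ (o : EuclideanSpace ℝ (Fin 4))
      (K : Set (EuclideanSpace ℝ (Fin 4))), GK b' o K = img Nm (GK b o K) := by
  let T : (Fin 4 → ℝ) →ₗ[ℝ] (Fin 4 → ℝ) :=
    { toFun := Nm
      map_add' := by
        intro c e; funext k; fin_cases k <;> simp [Nm] <;> ring
      map_smul' := by
        intro a c; funext k; fin_cases k <;> simp [Nm] }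
  have hT : ∀ c, T c = Nm c := fun c => rfl
  have hinv : ∀ c, Nm (Nm c) = c := by
    intro c; funext k; fin_cases k <;> simp [Nm]
  obtain ⟨b', h1, h2⟩ := exists_basis_T T hinv (by
    intro c e
    simp only [hT, Fin.sum_univ_four]
    simp [Nm]) b
  exact ⟨b', fun o K => GK_img hinv h1 h2 o K⟩

end Pool.Agent.Lib.MP_5e7226_co.DX
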