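import Mathlib

set_option autoImplicit false

/-! Definitions of the campaign DX (bodies with the symmetries of the reflection group `D_d`). -/

namespace Pool.Agent.Lib.MP_5e7226_co.DX

open Finset

variable {d : ℕ}

/-- A compact set of dual pairs, invariant under permutations and even sign changes. -/
structure Dual (G : Set ((Fin d → ℝ) × (Fin d → ℝ))) : Prop where
  compact : IsCompact G
  one : ∀ p ∈ G, ∑ i, p.2 i * p.1 i = 1
  le : ∀ p ∈ G, ∀ q ∈ G, ∀ (σ : Equiv.Perm (Fin d)) (ε : Fin d → ℝ), (∀ i, ε i = 1 ∨ ε i = -1) →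
    ∏ i, ε i = 1 → ∑ i, p.2 i * (ε i * q.1 (σ i)) ≤ 1

/-- `z` works for `x`: positive on all `u` with `(x, u) ∈ G`. -/
def Works (G : Set ((Fin d → ℝ) × (Fin d → ℝ))) (x z : Fin d → ℝ) : Prop :=
  ∀ u, (x, u) ∈ G → 0 < ∑ i, u i * z i

/-- `X` = absolute values of `x`, `U` = values of `u` times the signs of `x`. -/
structure Cham (X U : Fin d → ℝ) : Prop where
  nonneg : ∀ i, 0 ≤ X i
  dom : ∀ i j, X j < X i → |U j| ≤ U i
  pair : ∀ i j, i ≠ j → 0 < X i + X j → 0 ≤ U i + U j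
  one : ∑ i, U i * X i = 1

/-- The case of the cube. -/
def CubeData (G : Set ((Fin d → ℝ) × (Fin d → ℝ))) (t : ℝ) : Prop :=
  0 < t ∧ (∃ q ∈ G, (∀ k, |q.1 k| = t) ∧ ∏ k, q.1 k < 0) ∧ (∃ q ∈ G, (∀ k, |q.1 k| = t) ∧ 0 < ∏ k, q.1 k) ∧
    ∃ q ∈ G, ∃ i, |q.2 i| = 1 / t ∧ ∀ k, k ≠ i → q.2 k = 0

/-- The swapped pairs. -/
def swp (G : Set ((Fin d → ℝ) × (Fin d → ℝ))) : Set ((Fin d → ℝ) × (Fin d → ℝ)) := {q | (q.2, q.1) ∈ G}

end Pool.Agent.Lib.MP_5e7226_co.DX
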