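import Pool.Agent.Lib.MP_5e7226_co.Basic
import Pool.Agent.Lib.MP_5e7226_co.DX.Defs

set_option autoImplicit false

/-! Geometry: a body with the symmetries of `D_d`, and its set of dual pairs. -/

namespace Pool.Agent.Lib.MP_5e7226_co.DX

open Finset

variable {d : ℕ}

/-- The coordinates relative to the centre `o`. -/
noncomputable def co (b : Module.Basis (Fin d) ℝ (EuclideanSpace ℝ (Fin d))) (o p : EuclideanSpace ℝ (Fin d)) :
    Fin d → ℝ := fun i => b.repr (p - o) i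

/-- The values of a functional on the basis. -/
noncomputable def fu (b : Module.Basis (Fin d) ℝ (EuclideanSpace ℝ (Fin d)))
    (f : EuclideanSpace ℝ (Fin d) →L[ℝ] ℝ) : Fin d → ℝ := fun i => f (b i)

/-- The dual pairs of `K`. -/
def GK (b : Module.Basis (Fin d) ℝ (EuclideanSpace ℝ (Fin d))) (o : EuclideanSpace ℝ (Fin d))
    (K : Set (EuclideanSpace ℝ (Fin d))) : Set ((Fin d → ℝ) × (Fin d → ℝ)) :=
  {q | ∃ p ∈ K, ∃ f : EuclideanSpace ℝ (Fin d) →L[ℝ] ℝ, (∀ y ∈ K, f y - f o ≤ 1) ∧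
    f p - f o = 1 ∧ q = (co b o p, fu b f)}

/-- A convex body with the symmetries of `D_d` with centre `o`. -/
structure SymBody (b : Module.Basis (Fin d) ℝ (EuclideanSpace ℝ (Fin d))) (o : EuclideanSpace ℝ (Fin d))
    (K : Set (EuclideanSpace ℝ (Fin d))) : Prop where
  convex : Convex ℝ K
  compact : IsCompact K
  int : (interior K).Nonempty
  sym : ∀ (σ : Equiv.Perm (Fin d)) (ε : Fin d → ℝ), (∀ i, ε i = 1 ∨ ε i = -1) → ∏ i, ε i = 1 →
    ∀ p ∈ K, o + ∑ i, (ε i * co b o p i) • b (σ i) ∈ K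

theorem sum_co (b : Module.Basis (Fin d) ℝ (EuclideanSpace ℝ (Fin d))) (o p : EuclideanSpace ℝ (Fin d)) :
    ∑ i, co b o p i • b i = p - o := b.sum_repr (p - o)

theorem co_sum (b : Module.Basis (Fin d) ℝ (EuclideanSpace ℝ (Fin d))) (o : EuclideanSpace ℝ (Fin d))
    (c : Fin d → ℝ) : co b o (o + ∑ i, c i • b i) = c := by
  funext i
  unfold co
  rw [add_sub_cancel_left, b.repr_sum_self]

theorem pairing (b : Module.Basis (Fin d) ℝ (EuclideanSpace ℝ (Fin d))) (o : EuclideanSpace ℝ (Fin d))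
    (f : EuclideanSpace ℝ (Fin d) →L[ℝ] ℝ) (p : EuclideanSpace ℝ (Fin d)) :
    f p - f o = ∑ i, fu b f i * co b o p i := by
  rw [← map_sub, ← sum_co b o p, map_sum]
  refine sum_congr rfl fun i _ => ?_
  rw [map_smul, smul_eq_mul, fu, mul_comm]

end Pool.Agent.Lib.MP_5e7226_co.DX
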