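import Pool.Agent.Lib.MP_5e7226_co.DX.Gm1

set_option autoImplicit false

/-! Row DX-E: the cube and the cross-body. -/

namespace Pool.Agent.Lib.MP_5e7226_co.DX

open Finset

variable {d : ℕ}

private theorem crossE_sgn (r : ℝ) : ∃ s : ℝ, (s = 1 ∨ s = -1) ∧ s * r = |r| := by
  rcases le_total 0 r with h | h
  · exact ⟨1, Or.inl rfl, by rw [one_mul, abs_of_nonneg h]⟩
  · exact ⟨-1, Or.inr rfl, by rw [abs_of_nonpos h]; ring⟩

private theorem crossE_mul {r s : ℝ} (hr : r = 1 ∨ r = -1) (hs : s = 1 ∨ s = -1) : r * s = 1 ∨ r * s = -1 := by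
  rcases hr with rfl | rfl <;> rcases hs with rfl | rfl <;> simp

private theorem crossE_prod (s : Fin d → ℝ) (hs : ∀ i, s i = 1 ∨ s i = -1) : ∏ i, s i = 1 ∨ ∏ i, s i = -1 :=
  Finset.prod_induction s (fun r => r = 1 ∨ r = -1) (fun _ _ h1 h2 => crossE_mul h1 h2) (Or.inl rfl)
    (fun i _ => hs i)

private theorem crossE_le {b : Module.Basis (Fin d) ℝ (EuclideanSpace ℝ (Fin d))}
    {o : EuclideanSpace ℝ (Fin d)} {K : Set (EuclideanSpace ℝ (Fin d))} (hK : SymBody b o K) {t : ℝ} (ht : 0 < t)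
    {f : EuclideanSpace ℝ (Fin d) →L[ℝ] ℝ} (hf : ∀ y ∈ K, f y - f o ≤ 1) (hft : ∀ k, |fu b f k| = t)
    {s : Fin d → ℝ} (hs : ∀ i, s i = 1 ∨ s i = -1) (hp : 0 < (∏ k, fu b f k) * ∏ k, s k)
    {p : EuclideanSpace ℝ (Fin d)} (hpK : p ∈ K) : ∑ i, t * (s i * co b o p i) ≤ 1 := by
  have hη : ∀ i, fu b f i / t = 1 ∨ fu b f i / t = -1 := by
    intro i
    rcases abs_eq ht.le |>.1 (hft i) with h | h
    · exact Or.inl (by rw [h, div_self ht.ne'])
    · exact Or.inr (by rw [h, neg_div, div_self ht.ne'])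
  have hε : ∀ i, s i * (fu b f i / t) = 1 ∨ s i * (fu b f i / t) = -1 := fun i => crossE_mul (hs i) (hη i)
  have h1 : ∏ i, s i * (fu b f i / t) = 1 := by
    rcases crossE_prod _ hε with h | h
    · exact h
    · exfalso
      rw [Finset.prod_mul_distrib, Finset.prod_div_distrib] at h
      have h2 : 0 < (∏ i, s i) * ((∏ i, fu b f i) / ∏ _i : Fin d, t) := by
        rw [← mul_div_assoc, mul_comm (∏ i, s i)]
        exact div_pos hp (Finset.prod_pos fun _ _ => ht)
      linarith
  have h3 := hK.sym 1 (fun i => s i * (fu b f i / t)) hε h1 p hpK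
  have h4 := hf _ h3
  rw [pairing b o f] at h4
  have h5 := co_sum b o (fun i => s i * (fu b f i / t) * co b o p i)
  simp only [Equiv.Perm.coe_one, id_eq] at h4
  rw [h5] at h4
  refine le_trans (le_of_eq (Finset.sum_congr rfl fun i _ => ?_)) h4
  have h6 : fu b f i * fu b f i = t * t := by
    rw [← abs_mul_abs_self, hft i]
  have h7 : fu b f i * (s i * (fu b f i / t) * co b o p i) = (fu b f i * fu b f i) / t * (s i * co b o p i) := by
    ring
  rw [h7, h6, mul_div_assoc, div_self ht.ne', mul_one]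

private theorem crossE_vert (hd : 2 ≤ d) {b : Module.Basis (Fin d) ℝ (EuclideanSpace ℝ (Fin d))}
    {o : EuclideanSpace ℝ (Fin d)} {K : Set (EuclideanSpace ℝ (Fin d))} (hK : SymBody b o K)
    {p : EuclideanSpace ℝ (Fin d)} (hpK : p ∈ K) {i₀ : Fin d} (h0 : ∀ k, k ≠ i₀ → co b o p k = 0)
    (k : Fin d) {s : ℝ} (hs : s = 1 ∨ s = -1) : o + (s * co b o p i₀) • b k ∈ K := by
  have : Nontrivial (Fin d) := Fin.nontrivial_iff_two_le.2 hd
  obtain ⟨j, hj⟩ := exists_ne i₀
  have hss : s * s = 1 := by rcases hs with rfl | rfl <;> norm_num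
  have h1 : ∀ i, (if i = i₀ then s else if i = j then s else 1) = 1 ∨
      (if i = i₀ then s else if i = j then s else 1) = -1 := by
    intro i
    split_ifs
    · exact hs
    · exact hs
    · exact Or.inl rfl
  have h2 : ∏ i, (if i = i₀ then s else if i = j then s else 1) = 1 := by
    rw [← Finset.mul_prod_erase _ _ (Finset.mem_univ i₀), if_pos rfl,
      ← Finset.mul_prod_erase _ _ (Finset.mem_erase.2 ⟨hj, Finset.mem_univ j⟩), if_neg hj, if_pos rfl,
      Finset.prod_eq_one, mul_one, hss]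
    intro i hi
    rw [Finset.mem_erase, Finset.mem_erase] at hi
    rw [if_neg hi.2.1, if_neg hi.1]
  have h3 := hK.sym (Equiv.swap i₀ k) _ h1 h2 p hpK
  rw [Finset.sum_eq_single i₀, if_pos rfl, Equiv.swap_apply_left] at h3
  · exact h3
  · intro i _ hi
    rw [h0 i hi, mul_zero, zero_smul]
  · intro h
    exact absurd (Finset.mem_univ i₀) h

private theorem cubeE_vert {b : Module.Basis (Fin d) ℝ (EuclideanSpace ℝ (Fin d))}
    {o : EuclideanSpace ℝ (Fin d)} {K : Set (EuclideanSpace ℝ (Fin d))} (hK : SymBody b o K) {t : ℝ} (ht : 0 < t)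
    {p : EuclideanSpace ℝ (Fin d)} (hpK : p ∈ K) (hpt : ∀ k, |co b o p k| = t)
    {s : Fin d → ℝ} (hs : ∀ i, s i = 1 ∨ s i = -1) (hp : 0 < (∏ k, co b o p k) * ∏ k, s k) :
    o + ∑ i, (t * s i) • b i ∈ K := by
  have hη : ∀ i, co b o p i / t = 1 ∨ co b o p i / t = -1 := by
    intro i
    rcases abs_eq ht.le |>.1 (hpt i) with h | h
    · exact Or.inl (by rw [h, div_self ht.ne'])
    · exact Or.inr (by rw [h, neg_div, div_self ht.ne'])
  have hε : ∀ i, s i * (co b o p i / t) = 1 ∨ s i * (co b o p i / t) = -1 := fun i => crossE_mul (hs i) (hη i)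
  have h1 : ∏ i, s i * (co b o p i / t) = 1 := by
    rcases crossE_prod _ hε with h | h
    · exact h
    · exfalso
      rw [Finset.prod_mul_distrib, Finset.prod_div_distrib] at h
      have h2 : 0 < (∏ i, s i) * ((∏ i, co b o p i) / ∏ _i : Fin d, t) := by
        rw [← mul_div_assoc, mul_comm (∏ i, s i)]
        exact div_pos hp (Finset.prod_pos fun _ _ => ht)
      linarith
  have h3 := hK.sym 1 (fun i => s i * (co b o p i / t)) hε h1 p hpK
  have h4 : ∀ i, s i * (co b o p i / t) * co b o p i = t * s i := by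
    intro i
    have h6 : co b o p i * co b o p i = t * t := by
      rw [← abs_mul_abs_self, hpt i]
    have h7 : s i * (co b o p i / t) * co b o p i = (co b o p i * co b o p i) / t * s i := by ring
    rw [h7, h6, mul_div_assoc, div_self ht.ne', mul_one]
  simpa only [h4, Equiv.Perm.coe_one, id_eq] using h3

private theorem cubeE_fill {b : Module.Basis (Fin d) ℝ (EuclideanSpace ℝ (Fin d))}
    {o : EuclideanSpace ℝ (Fin d)} {K : Set (EuclideanSpace ℝ (Fin d))} (hc : Convex ℝ K) {t : ℝ} (ht : 0 < t)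
    (hv : ∀ s : Fin d → ℝ, (∀ i, s i = 1 ∨ s i = -1) → o + ∑ i, (t * s i) • b i ∈ K) (S : Finset (Fin d)) :
    ∀ c : Fin d → ℝ, (∀ i ∈ S, |c i| ≤ t) → (∀ i, i ∉ S → |c i| = t) → o + ∑ i, c i • b i ∈ K := by
  induction S using Finset.induction_on with
  | empty =>
    intro c _ h2
    have h3 := hv (fun i => c i / t) (fun i => by
      rcases abs_eq ht.le |>.1 (h2 i (Finset.notMem_empty i)) with h | h
      · exact Or.inl (by rw [h, div_self ht.ne'])
      · exact Or.inr (by rw [h, neg_div, div_self ht.ne']))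
    simpa only [mul_div_cancel₀ _ ht.ne', mul_div_cancel_left₀ _ ht.ne', mul_div_cancel_right₀ _ ht.ne',
      mul_div_assoc', mul_comm t] using h3
  | insert a S ha ih =>
    intro c h1 h2
    have hup : ∀ r : ℝ, |r| = t → (o + ∑ i, c i • b i) + (r - c a) • b a ∈ K := by
      intro r hr
      have h3 := ih (Function.update c a r) (fun i hi => by
        have hia : i ≠ a := by
          rintro rfl
          exact ha hi
        rw [Function.update_of_ne hia]
        exact h1 i (Finset.mem_insert_of_mem hi)) (fun i hi => by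
        rcases eq_or_ne i a with rfl | h
        · rw [Function.update_self, hr]
        · rw [Function.update_of_ne h]
          exact h2 i (by rw [Finset.mem_insert, not_or]; exact ⟨h, hi⟩))
      have h4 : ∑ i, Function.update c a r i • b i = ∑ i, c i • b i + (r - c a) • b a := by
        rw [← Finset.add_sum_erase _ _ (Finset.mem_univ a), Function.update_self,
          ← Finset.add_sum_erase _ (fun i => c i • b i) (Finset.mem_univ a),
          Finset.sum_congr rfl (g := fun i => c i • b i) (fun i hi => by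
            rw [Function.update_of_ne (Finset.ne_of_mem_erase hi)])]
        rw [sub_smul]
        abel
      rw [h4, ← add_assoc] at h3
      exact h3
    have h5 := abs_le.1 (h1 a (Finset.mem_insert_self a S))
    have h6 := hc (hup t (abs_of_pos ht)) (hup (-t) (by rw [abs_neg, abs_of_pos ht]))
      (a := (t + c a) / (2 * t)) (b := (t - c a) / (2 * t))
      (div_nonneg (by linarith) (by linarith)) (div_nonneg (by linarith) (by linarith))
      (by field_simp; ring)
    have h7 : ((t + c a) / (2 * t)) • ((o + ∑ i, c i • b i) + (t - c a) • b a) +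
        ((t - c a) / (2 * t)) • ((o + ∑ i, c i • b i) + (-t - c a) • b a) = o + ∑ i, c i • b i := by
      rw [smul_add _ (o + ∑ i, c i • b i), smul_add _ (o + ∑ i, c i • b i), smul_smul, smul_smul,
        add_add_add_comm, ← add_smul, ← add_smul]
      have h8 : (t + c a) / (2 * t) + (t - c a) / (2 * t) = 1 := by field_simp; ring
      have h9 : (t + c a) / (2 * t) * (t - c a) + (t - c a) / (2 * t) * (-t - c a) = 0 := by ring
      rw [h8, h9, one_smul, zero_smul, add_zero]
    rw [h7] at h6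
    exact h6

/-- PROOF. `K` contains all points with coordinates `± t` (orbits of the two points: a sign vector whose product has the right sign is reached from `q.1` by an even sign change), so their convex hull
`{|c i| ≤ t}` (a point of the cube is in the hull of the vertices: e.g. the hull is convex and closed under changing one coordinate; or `convexHull_pi`, `convexHull_pair`, `segment_eq_Icc`); the
functional `f` with `f (b i) = ± 1 / t`, `f (b k) = 0` otherwise and its images (swap and change of two signs, `2 ≤ d`) give `|c k| ≤ t` on `K`. -/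
theorem cube_end (hd : 2 ≤ d) {b : Module.Basis (Fin d) ℝ (EuclideanSpace ℝ (Fin d))}
    {o : EuclideanSpace ℝ (Fin d)} {K : Set (EuclideanSpace ℝ (Fin d))} (hK : SymBody b o K) {t : ℝ}
    (h : CubeData (GK b o K) t) : K = {x | ∃ c : Fin d → ℝ, (∀ i, |c i| ≤ t) ∧ x = o + ∑ i, c i • b i} := by
  obtain ⟨ht, ⟨q₁, hq₁, ha₁, hb₁⟩, ⟨q₂, hq₂, ha₂, hb₂⟩, q₃, hq₃, i₀, hc, h0⟩ := h
  obtain ⟨p₁, hp₁, f₁, -, -, e₁⟩ := hq₁
  obtain ⟨p₂, hp₂, f₂, -, -, e₂⟩ := hq₂
  obtain ⟨p₃, -, f₃, hf₃, -, e₃⟩ := hq₃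
  subst e₁ e₂ e₃
  ext x
  constructor
  · intro hx
    refine ⟨co b o x, fun k => ?_, by rw [sum_co, add_sub_cancel]⟩
    have : Nontrivial (Fin d) := Fin.nontrivial_iff_two_le.2 hd
    obtain ⟨j, hj⟩ := exists_ne k
    obtain ⟨s₁, hs₁, hsc₁⟩ := crossE_sgn (co b o x k)
    obtain ⟨s₂, hs₂, hsc₂⟩ := crossE_sgn (fu b f₃ i₀)
    have hs := crossE_mul hs₁ hs₂
    have hss : (s₁ * s₂) * (s₁ * s₂) = 1 := by rcases hs with h | h <;> rw [h] <;> norm_num
    have h1 : ∀ i, (if i = k then s₁ * s₂ else if i = j then s₁ * s₂ else 1) = 1 ∨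
        (if i = k then s₁ * s₂ else if i = j then s₁ * s₂ else 1) = -1 := by
      intro i
      split_ifs
      · exact hs
      · exact hs
      · exact Or.inl rfl
    have h2 : ∏ i, (if i = k then s₁ * s₂ else if i = j then s₁ * s₂ else 1) = 1 := by
      rw [← Finset.mul_prod_erase _ _ (Finset.mem_univ k), if_pos rfl,
        ← Finset.mul_prod_erase _ _ (Finset.mem_erase.2 ⟨hj, Finset.mem_univ j⟩), if_neg hj, if_pos rfl,
        Finset.prod_eq_one, mul_one, hss]
      intro i hi
      rw [Finset.mem_erase, Finset.mem_erase] at hi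
      rw [if_neg hi.2.1, if_neg hi.1]
    have h3 := hf₃ _ (hK.sym (Equiv.swap k i₀) _ h1 h2 x hx)
    rw [← map_sub, add_sub_cancel_left, map_sum, Finset.sum_eq_single k, if_pos rfl,
      Equiv.swap_apply_left, map_smul, smul_eq_mul] at h3
    · have h4 : s₁ * s₂ * co b o x k * f₃ (b i₀) = (s₁ * co b o x k) * (s₂ * fu b f₃ i₀) := by
        unfold fu; ring
      have hc' : |fu b f₃ i₀| = 1 / t := hc
      rw [h4, hsc₁, hsc₂, hc', mul_one_div, div_le_one ht] at h3
      exact h3
    · intro i _ hi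
      have h5 : Equiv.swap k i₀ i ≠ i₀ := by
        intro h
        exact hi ((Equiv.swap k i₀).injective (h.trans (Equiv.swap_apply_left k i₀).symm))
      have h6 : f₃ (b (Equiv.swap k i₀ i)) = 0 := h0 _ h5
      rw [map_smul, h6, smul_zero]
    · intro h
      exact absurd (Finset.mem_univ k) h
  · rintro ⟨c, hct, rfl⟩
    refine cubeE_fill hK.convex ht ?_ Finset.univ c (fun i _ => hct i) (fun i hi => absurd (Finset.mem_univ i) hi)
    intro s hs
    rcases crossE_prod s hs with h | h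
    · exact cubeE_vert hK ht hp₂ ha₂ hs (by rw [h, mul_one]; exact hb₂)
    · exact cubeE_vert hK ht hp₁ ha₁ hs (by rw [h, mul_neg, mul_one]; exact neg_pos.2 hb₁)

/-- PROOF. `K` contains the points `o ± (1 / t) b k` (orbit of the point of the last pair; two sign changes, `2 ≤ d`), and the functionals with the values `± t` on the basis are `≤ 1` on `K - o`: for `p`
with coordinates `c` choose the signs of `c`: `∑ |c i| ≤ 1 / t`. -/
theorem cross_end (hd : 2 ≤ d) {b : Module.Basis (Fin d) ℝ (EuclideanSpace ℝ (Fin d))}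
    {o : EuclideanSpace ℝ (Fin d)} {K : Set (EuclideanSpace ℝ (Fin d))} (hK : SymBody b o K) {t : ℝ}
    (h : CubeData (swp (GK b o K)) t) :
    K = {x | ∃ c : Fin d → ℝ, ∑ i, |c i| ≤ 1 / t ∧ x = o + ∑ i, c i • b i} := by
  obtain ⟨ht, ⟨q₁, hq₁, ha₁, hb₁⟩, ⟨q₂, hq₂, ha₂, hb₂⟩, q₃, hq₃, i₀, hc, h0⟩ := h
  obtain ⟨p₁, -, f₁, hf₁, -, e₁⟩ := hq₁
  obtain ⟨p₂, -, f₂, hf₂, -, e₂⟩ := hq₂
  obtain ⟨p₃, hp₃, f₃, -, -, e₃⟩ := hq₃
  obtain ⟨-, e₁⟩ := Prod.mk.inj e₁
  obtain ⟨-, e₂⟩ := Prod.mk.inj e₂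
  obtain ⟨e₃, -⟩ := Prod.mk.inj e₃
  rw [e₁] at ha₁ hb₁
  rw [e₂] at ha₂ hb₂
  rw [e₃] at hc h0
  ext x
  constructor
  · intro hx
    refine ⟨co b o x, ?_, ?_⟩
    · choose s hs hsc using fun i => crossE_sgn (co b o x i)
      have h1 : ∑ i, t * (s i * co b o x i) ≤ 1 := by
        rcases crossE_prod s hs with h | h
        · exact crossE_le hK ht hf₂ ha₂ hs (by rw [h, mul_one]; exact hb₂) hx
        · exact crossE_le hK ht hf₁ ha₁ hs (by rw [h, mul_neg, mul_one]; exact neg_pos.2 hb₁) hx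
      rw [← Finset.mul_sum] at h1
      simp only [hsc] at h1
      rw [le_div_iff₀ ht, mul_comm]
      exact h1
    · rw [sum_co, add_sub_cancel]
  · rintro ⟨c, hc1, rfl⟩
    have hoK : o ∈ K := interior_subset (cen_mem_interior hd hK)
    have hv : ∀ i, ∃ s : ℝ, (o + s • b i ∈ K) ∧ (t * |c i|) * s = c i := by
      intro i
      obtain ⟨s₁, hs₁, hsc₁⟩ := crossE_sgn (c i)
      obtain ⟨s₂, hs₂, hsc₂⟩ := crossE_sgn (co b o p₃ i₀)
      refine ⟨(s₁ * s₂) * co b o p₃ i₀, crossE_vert hd hK hp₃ h0 i (crossE_mul hs₁ hs₂), ?_⟩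
      rw [hc] at hsc₂
      have h2 : s₁ * s₁ = 1 := by rcases hs₁ with rfl | rfl <;> norm_num
      calc t * |c i| * (s₁ * s₂ * co b o p₃ i₀) = t * |c i| * s₁ * (s₂ * co b o p₃ i₀) := by ring
        _ = (t * (1 / t)) * ((s₁ * s₁) * c i) := by rw [hsc₂, ← hsc₁]; ring
        _ = c i := by rw [mul_one_div_cancel ht.ne', h2, one_mul, one_mul]
    choose s hsK hsc using hv
    have h3 : ∑ i : Option (Fin d), (Option.elim i (1 - ∑ k, t * |c k|) fun k => t * |c k|) •
        (Option.elim i o fun k => o + s k • b k) ∈ K := by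
      refine hK.convex.sum_mem ?_ ?_ ?_
      · rintro (_ | i) -
        · simp only [Option.elim_none]
          rw [← Finset.mul_sum, sub_nonneg]
          rwa [le_div_iff₀ ht, mul_comm] at hc1
        · exact mul_nonneg ht.le (abs_nonneg _)
      · rw [Fintype.sum_option]
        simp
      · rintro (_ | i) -
        · exact hoK
        · exact hsK i
    rw [Fintype.sum_option] at h3
    simp only [Option.elim_none, Option.elim_some, smul_add, smul_smul, hsc] at h3
    rw [Finset.sum_add_distrib, ← Finset.sum_smul, ← add_assoc, ← add_smul, sub_add_cancel, one_smul] at h3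
    exact h3

end Pool.Agent.Lib.MP_5e7226_co.DX
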